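import Pool.Agent.Helper36.CV.StmtsQ

set_option autoImplicit false

namespace Pool.Agent.Helper48.CV.Q3

open Complex Filter Topology MeasureTheory Set Pool.Agent.Helper36.CV

noncomputable section

/-! ### logarithm on the closed upper half plane -/

lemma q3_log_cont : ContinuousOn Complex.log {z : ℂ | 0 ≤ z.im ∧ z ≠ 0} := by
  intro z hz
  by_cases h : z ∈ slitPlane
  · exact (continuousAt_clog h).continuousWithinAt
  · rw [mem_slitPlane_iff] at h
    push Not at h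
    have h2 : z.im = 0 := h.2
    have h1 : z.re < 0 := by
      rcases lt_or_eq_of_le h.1 with h3 | h3
      · exact h3
      · exact absurd (Complex.ext h3 h2) hz.2
    exact (Complex.continuousWithinAt_log_of_re_neg_of_im_zero h1 h2).mono (fun w hw => hw.1)

lemma q3_norm_log (z : ℂ) : ‖Complex.log z‖ ≤ |Real.log ‖z‖| + Real.pi := by
  have h := Complex.norm_le_abs_re_add_abs_im (Complex.log z)
  rw [Complex.log_re, Complex.log_im] at h
  have h2 := Complex.abs_arg_le_pi z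
  linarith

/-! ### kernels -/

lemma q3_h_nonneg {y Z : ℝ} (hy : 0 < y) (hZ : 0 ≤ Z) (u : ℝ) :
    0 ≤ Z / ((|u| + y) * (|u| + y + Z)) := by
  have := abs_nonneg u
  positivity

lemma q3_h_deriv {y Z : ℝ} (hy : 0 < y) (hZ : 0 ≤ Z) (t : ℝ) (ht : t ∈ Ici (0 : ℝ)) :
    HasDerivAt (fun t : ℝ => Real.log (t + y) - Real.log (t + y + Z)) (Z / ((t + y) * (t + y + Z))) t := by
  have ht' : 0 ≤ t := ht
  have h1 : t + y ≠ 0 := by positivity
  have h2 : t + y + Z ≠ 0 := by positivity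
  have d1 : HasDerivAt (fun t : ℝ => t + y) 1 t := (hasDerivAt_id t).add_const y
  have d2 : HasDerivAt (fun t : ℝ => t + y + Z) 1 t := d1.add_const Z
  have e1 := d1.log h1
  have e2 := d2.log h2
  have e3 := e1.sub e2
  have e4 : 1 / (t + y) - 1 / (t + y + Z) = Z / ((t + y) * (t + y + Z)) := by
    field_simp
    ring
  rw [e4] at e3
  exact e3

lemma q3_h_lim {y Z : ℝ} (hy : 0 < y) (hZ : 0 ≤ Z) :
    Tendsto (fun t : ℝ => Real.log (t + y) - Real.log (t + y + Z)) atTop (𝓝 0) := by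
  have h1 : Tendsto (fun t : ℝ => t + y) atTop atTop := tendsto_atTop_add_const_right _ _ tendsto_id
  have h2 : Tendsto (fun t : ℝ => Z / (t + y)) atTop (𝓝 0) := h1.const_div_atTop Z
  have h3 : Tendsto (fun t : ℝ => -Real.log (1 + Z / (t + y))) atTop (𝓝 (-Real.log (1 + 0))) := by
    have h4 : Tendsto (fun t : ℝ => 1 + Z / (t + y)) atTop (𝓝 (1 + 0)) := h2.const_add 1
    exact ((Real.continuousAt_log (by norm_num)).tendsto.comp h4).neg
  have h5 : -Real.log (1 + 0) = (0 : ℝ) := by simp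
  rw [h5] at h3
  refine h3.congr' ?_
  filter_upwards [eventually_ge_atTop (0 : ℝ)] with t ht
  have h6 : t + y ≠ 0 := by positivity
  have h7 : t + y + Z ≠ 0 := by positivity
  have h8 : 1 + Z / (t + y) = (t + y + Z) / (t + y) := by field_simp
  rw [h8, Real.log_div h7 h6]
  ring

lemma q3_h_Ioi {y Z : ℝ} (hy : 0 < y) (hZ : 0 ≤ Z) :
    IntegrableOn (fun t : ℝ => Z / ((t + y) * (t + y + Z))) (Ioi 0) ∧
    ∫ t in Ioi (0 : ℝ), Z / ((t + y) * (t + y + Z)) = Real.log (1 + Z / y) := by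
  have hpos : ∀ t ∈ Ioi (0 : ℝ), 0 ≤ Z / ((t + y) * (t + y + Z)) := by
    intro t ht
    have ht' : 0 < t := ht
    positivity
  constructor
  · exact integrableOn_Ioi_deriv_of_nonneg' (q3_h_deriv hy hZ) hpos (q3_h_lim hy hZ)
  · rw [integral_Ioi_of_hasDerivAt_of_nonneg' (q3_h_deriv hy hZ) hpos (q3_h_lim hy hZ)]
    have h8 : 1 + Z / y = (y + Z) / y := by field_simp
    have h6 : y ≠ 0 := hy.ne'
    have h7 : y + Z ≠ 0 := by positivity
    rw [h8, Real.log_div h7 h6]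
    simp

lemma q3_int_abs {f : ℝ → ℝ} (h : IntegrableOn f (Ioi 0)) : Integrable (fun x => f |x|) := by
  have hf : IntegrableOn (fun x => f |x|) (Ioi 0) :=
    h.congr_fun (fun x hx => by
      have hx' : (0 : ℝ) < x := hx
      simp only [abs_of_pos hx']) measurableSet_Ioi
  have int_Iic : IntegrableOn (fun x ↦ f |x|) (Iic 0) := by
    rw [← Measure.map_neg_eq_self (volume : Measure ℝ)]
    let m : MeasurableEmbedding fun x : ℝ => -x := (Homeomorph.neg ℝ).measurableEmbedding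
    rw [m.integrableOn_map_iff]
    simp_rw [Function.comp_def, abs_neg, neg_preimage, neg_Iic, neg_zero]
    exact Iff.mpr integrableOn_Ici_iff_integrableOn_Ioi hf
  rw [← integrableOn_univ, ← Iic_union_Ioi (a := (0 : ℝ))]
  exact int_Iic.union hf

lemma q3_h_int {y Z : ℝ} (hy : 0 < y) (hZ : 0 ≤ Z) (x : ℝ) :
    Integrable (fun t : ℝ => Z / ((|t - x| + y) * (|t - x| + y + Z))) ∧
    ∫ t : ℝ, Z / ((|t - x| + y) * (|t - x| + y + Z)) = 2 * Real.log (1 + Z / y) := by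
  obtain ⟨h1, h2⟩ := q3_h_Ioi hy hZ
  have h3 : Integrable (fun t : ℝ => Z / ((|t| + y) * (|t| + y + Z))) := q3_int_abs h1
  constructor
  · exact h3.comp_sub_right x
  · rw [integral_sub_right_eq_self (fun t : ℝ => Z / ((|t| + y) * (|t| + y + Z))) x]
    rw [integral_comp_abs (f := fun t : ℝ => Z / ((t + y) * (t + y + Z))), h2]

/-- the tail kernel -/
lemma q3_tail_Ioi {R : ℝ} (hR : 0 < R) :
    IntegrableOn (fun t : ℝ => 1 / t ^ 2) (Ioi R) ∧ ∫ t in Ioi R, 1 / t ^ 2 = 1 / R := by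
  have hd : ∀ t ∈ Ici R, HasDerivAt (fun t : ℝ => -t⁻¹) (1 / t ^ 2) t := by
    intro t ht
    have ht' : R ≤ t := ht
    have h0 : t ≠ 0 := by linarith
    have h1 := (hasDerivAt_inv h0).neg
    have h2 : -(-(t ^ 2)⁻¹) = 1 / t ^ 2 := by rw [neg_neg, one_div]
    rw [h2] at h1
    exact h1
  have hp : ∀ t ∈ Ioi R, 0 ≤ 1 / t ^ 2 := fun t _ => by positivity
  have hl : Tendsto (fun t : ℝ => -t⁻¹) atTop (𝓝 0) := by
    have := (tendsto_inv_atTop_zero (𝕜 := ℝ)).neg
    rw [neg_zero] at this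
    exact this
  constructor
  · exact integrableOn_Ioi_deriv_of_nonneg' hd hp hl
  · rw [integral_Ioi_of_hasDerivAt_of_nonneg' hd hp hl]
    rw [one_div]
    ring

/-- two-sided tail -/
def tl (c R t : ℝ) : ℝ := if R < |t - c| then 1 / (t - c) ^ 2 else 0

def tlr (c R t : ℝ) : ℝ := if R < t - c then 1 / (t - c) ^ 2 else 0

lemma q3_tl_int {R : ℝ} (hR : 0 < R) (c : ℝ) : Integrable (tl c R) ∧ ∫ t, tl c R t = 2 / R := by
  obtain ⟨h1, h2⟩ := q3_tail_Ioi hR
  let f : ℝ → ℝ := (Ioi R).indicator (fun t : ℝ => 1 / t ^ 2)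
  have hf : Integrable f := (integrable_indicator_iff measurableSet_Ioi).2 h1
  have hf2 : ∫ t in Ioi (0 : ℝ), f t = 1 / R := by
    have h3 : ∫ t in Ioi (0 : ℝ), f t = ∫ t in Ioi (0 : ℝ) ∩ Ioi R, 1 / t ^ 2 :=
      setIntegral_indicator measurableSet_Ioi
    rw [h3]
    have h4 : Ioi (0 : ℝ) ∩ Ioi R = Ioi R := by
      ext t
      simp only [mem_inter_iff, mem_Ioi]
      exact ⟨fun h => h.2, fun h => ⟨lt_trans hR h, h⟩⟩
    rw [h4, h2]
  have h5 : tl c R = fun t => (fun u => f |u|) (t - c) := by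
    funext t
    show tl c R t = f |t - c|
    unfold tl
    by_cases h : R < |t - c|
    · rw [if_pos h]
      show _ = (Ioi R).indicator (fun t : ℝ => 1 / t ^ 2) |t - c|
      rw [indicator_of_mem (show |t - c| ∈ Ioi R from h), sq_abs]
    · rw [if_neg h]
      show _ = (Ioi R).indicator (fun t : ℝ => 1 / t ^ 2) |t - c|
      rw [indicator_of_notMem (show |t - c| ∉ Ioi R from h)]
  rw [h5]
  constructor
  · exact (q3_int_abs hf.integrableOn).comp_sub_right c
  · rw [integral_sub_right_eq_self (fun u => f |u|) c, integral_comp_abs, hf2]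
    ring

lemma q3_tlr_int {R : ℝ} (hR : 0 < R) (c : ℝ) : Integrable (tlr c R) ∧ ∫ t, tlr c R t = 1 / R := by
  obtain ⟨h1, h2⟩ := q3_tail_Ioi hR
  let f : ℝ → ℝ := (Ioi R).indicator (fun t : ℝ => 1 / t ^ 2)
  have hf : Integrable f := (integrable_indicator_iff measurableSet_Ioi).2 h1
  have hf2 : ∫ t, f t = 1 / R := by
    rw [← h2]
    exact integral_indicator measurableSet_Ioi
  have h5 : tlr c R = fun t => f (t - c) := by
    funext t
    show tlr c R t = f (t - c)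
    unfold tlr
    by_cases h : R < t - c
    · rw [if_pos h]
      show _ = (Ioi R).indicator (fun t : ℝ => 1 / t ^ 2) (t - c)
      rw [indicator_of_mem (show (t - c) ∈ Ioi R from h)]
    · rw [if_neg h]
      show _ = (Ioi R).indicator (fun t : ℝ => 1 / t ^ 2) (t - c)
      rw [indicator_of_notMem (show (t - c) ∉ Ioi R from h)]
  rw [h5]
  constructor
  · exact hf.comp_sub_right c
  · rw [integral_sub_right_eq_self f c, hf2]

/-- Poisson kernel -/
lemma q3_poisson (hA2 : ST_A2) (z : ℂ) (hz : z ∈ Uo) :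
    Integrable (fun t : ℝ => z.im / ((t - z.re) ^ 2 + z.im ^ 2)) ∧
    ∫ t : ℝ, z.im / ((t - z.re) ^ 2 + z.im ^ 2) = Real.pi := by
  have h := (hA2 (fun _ => I) ∅ 1 continuousOn_const (differentiableOn_const I)
    (fun w hw => by
      have h1 : 0 ≤ Real.log (1 + ‖w‖) := Real.log_nonneg (by linarith [norm_nonneg w])
      have h2 := abs_nonneg (Real.log w.im)
      simp only [norm_I]
      linarith)
    (fun w hw => by
      have h1 : 0 ≤ Real.log (1 + ‖w‖) := Real.log_nonneg (by linarith [norm_nonneg w])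
      simp only [I_im, abs_one]
      linarith)).1 z hz
  simp only [I_im, one_mul] at h
  refine ⟨h.1, ?_⟩
  have h2 := h.2
  have hpi := Real.pi_ne_zero
  field_simp at h2
  linarith

/-- comparison of the Cauchy kernel with the model kernels -/
lemma q3_kernel {A B u w Z : ℝ} (hu : 0 < u) (hw : 0 < w) (hZ : 0 ≤ Z) (hA : u / 2 ≤ A) (hB : w / 2 ≤ B)
    (hZAB : Z ≤ A + B) :
    Z / (A * B) ≤ 12 * (Z / (u * (u + Z)) + Z / (w * (w + Z))) := by
  have hA0 : 0 < A := by linarith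
  have hB0 : 0 < B := by linarith
  have key : ∀ a b v : ℝ, 0 < v → v / 2 ≤ a → a ≤ b → Z ≤ a + b → Z / (a * b) ≤ 12 * (Z / (v * (v + Z))) := by
    intro a b v hv hva hab hz
    have ha : 0 < a := by linarith
    have hb : 0 < b := by linarith
    rw [← mul_div_assoc, div_le_div_iff₀ (by positivity) (by positivity)]
    have h1 : v * (v + Z) ≤ 12 * (a * b) := by
      have h2 : v + Z ≤ 2 * a + (a + b) := by linarith
      have h3 : v + Z ≤ 4 * b := by linarith
      calc v * (v + Z) ≤ (2 * a) * (4 * b) := by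
            apply mul_le_mul (by linarith) h3 (by linarith) (by linarith)
        _ ≤ 12 * (a * b) := by nlinarith [mul_pos ha hb]
    nlinarith [mul_le_mul_of_nonneg_left h1 hZ]
  have n1 : 0 ≤ Z / (u * (u + Z)) := by positivity
  have n2 : 0 ≤ Z / (w * (w + Z)) := by positivity
  rcases le_total A B with h | h
  · have := key A B u hu hA h hZAB
    linarith
  · have := key B A w hw hB h (by linarith)
    rw [mul_comm B A] at this
    linarith

/-! ### the abstract estimate -/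

/-- boundary data -/
structure BD (θ : ℝ → ℝ) (a b ε R : ℝ) : Prop where
  mid : ∀ t ∈ Ioo a b, θ t = 0
  rt : ∀ t, b < t → 0 ≤ θ t ∧ θ t ≤ Real.pi / 2 ∧ (|t - (a + b) / 2| ≤ R → θ t ≤ 3 * ε)
  lf : ∀ t, t < a → -(Real.pi / 2) ≤ θ t ∧ θ t ≤ 0 ∧ (|t - (a + b) / 2| ≤ R → -(3 * ε) ≤ θ t)

lemma q3_ae_ne (a : ℝ) : ∀ᵐ t : ℝ, t ≠ a := by
  have h : (volume : Measure ℝ) {a} = 0 := by simp
  have h2 := measure_eq_zero_iff_ae_notMem.1 h
  filter_upwards [h2] with t ht
  simpa using ht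

lemma q3_re_dist {z : ℂ} {c : ℝ} : |z.re - c| ≤ ‖z - (c : ℂ)‖ := by
  have := Complex.abs_re_le_norm (z - (c : ℂ))
  simpa using this

lemma q3_im_dist {z : ℂ} {c : ℝ} : |z.im| ≤ ‖z - (c : ℂ)‖ := by
  have := Complex.abs_im_le_norm (z - (c : ℂ))
  simpa using this

lemma q3_pk_tail {z : ℂ} {c R t : ℝ} (hR : 0 < R) (hz : z ∈ Uo) (hzc : ‖z - (c : ℂ)‖ ≤ R / 4) (ht : R < |t - c|) :
    z.im / ((t - z.re) ^ 2 + z.im ^ 2) ≤ 16 / 9 * z.im * (1 / (t - c) ^ 2) := by
  have hy : 0 < z.im := hz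
  have h1 : |z.re - c| ≤ R / 4 := le_trans q3_re_dist hzc
  have h2 : |t - c| ≤ |t - z.re| + |z.re - c| := abs_sub_le t z.re c
  have h3 : 3 / 4 * |t - c| ≤ |t - z.re| := by linarith
  have h4 : (3 / 4 * |t - c|) ^ 2 ≤ |t - z.re| ^ 2 := pow_le_pow_left₀ (by positivity) h3 2
  rw [mul_pow, sq_abs, sq_abs] at h4
  have h5 : 0 < (t - c) ^ 2 := by
    have : 0 < |t - c| := by linarith
    have := pow_pos this 2
    rwa [sq_abs] at this
  rw [mul_one_div, div_le_div_iff₀ (by positivity) h5]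
  have h6 : (t - c) ^ 2 ≤ 16 / 9 * ((t - z.re) ^ 2 + z.im ^ 2) := by nlinarith [sq_nonneg z.im]
  nlinarith [mul_le_mul_of_nonneg_left h6 hy.le]

lemma q3_arg_up (θ : ℝ → ℝ) (a b ε R : ℝ) (hA2 : ST_A2) (hε : 0 < ε) (hR : 0 < R)
    (hbd : BD θ a b ε R) (z : ℂ) (hz : z ∈ Uo) (hzc : ‖z - (((a + b) / 2 : ℝ) : ℂ)‖ ≤ R / 4)
    (hi : Integrable (fun t : ℝ => θ t * (z.im / ((t - z.re) ^ 2 + z.im ^ 2)))) :
    (1 / Real.pi) * ∫ t : ℝ, θ t * (z.im / ((t - z.re) ^ 2 + z.im ^ 2)) ≤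
      3 * ε + ‖z - (((a + b) / 2 : ℝ) : ℂ)‖ / R := by
  have hy : 0 < z.im := hz
  have hpi := Real.pi_pos
  obtain ⟨p1, p2⟩ := q3_poisson hA2 z hz
  obtain ⟨t1, t2⟩ := q3_tlr_int hR ((a + b) / 2)
  have hle : ∫ t : ℝ, θ t * (z.im / ((t - z.re) ^ 2 + z.im ^ 2)) ≤
      ∫ t : ℝ, (3 * ε * (z.im / ((t - z.re) ^ 2 + z.im ^ 2)) +
        Real.pi / 2 * (16 / 9 * z.im) * tlr ((a + b) / 2) R t) := by
    refine integral_mono_ae hi ((p1.const_mul _).add (t1.const_mul _)) ?_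
    filter_upwards [q3_ae_ne a, q3_ae_ne b] with t hta htb
    show θ t * (z.im / ((t - z.re) ^ 2 + z.im ^ 2)) ≤ 3 * ε * (z.im / ((t - z.re) ^ 2 + z.im ^ 2)) +
        Real.pi / 2 * (16 / 9 * z.im) * tlr ((a + b) / 2) R t
    have hP : 0 ≤ z.im / ((t - z.re) ^ 2 + z.im ^ 2) := by positivity
    have htl : 0 ≤ tlr ((a + b) / 2) R t := by
      unfold tlr
      split_ifs
      · positivity
      · exact le_refl 0
    have hs : 0 ≤ Real.pi / 2 * (16 / 9 * z.im) * tlr ((a + b) / 2) R t := by positivity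
    rcases lt_trichotomy t a with h | h | h
    · have h1 := (hbd.lf t h).2.1
      have h2 : θ t * (z.im / ((t - z.re) ^ 2 + z.im ^ 2)) ≤ 0 := mul_nonpos_of_nonpos_of_nonneg h1 hP
      have h3 : 0 ≤ 3 * ε * (z.im / ((t - z.re) ^ 2 + z.im ^ 2)) := by positivity
      linarith
    · exact absurd h hta
    · rcases lt_trichotomy t b with h' | h' | h'
      · rw [hbd.mid t ⟨h, h'⟩, zero_mul]
        have h3 : 0 ≤ 3 * ε * (z.im / ((t - z.re) ^ 2 + z.im ^ 2)) := by positivity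
        linarith
      · exact absurd h' htb
      · obtain ⟨b1, b2, b3⟩ := hbd.rt t h'
        by_cases hw : |t - (a + b) / 2| ≤ R
        · have h4 := mul_le_mul_of_nonneg_right (b3 hw) hP
          linarith
        · push Not at hw
          have h5 : |t - (a + b) / 2| = t - (a + b) / 2 := abs_of_nonneg (by linarith)
          have h6 := q3_pk_tail hR hz hzc hw
          have h7 : tlr ((a + b) / 2) R t = 1 / (t - (a + b) / 2) ^ 2 := by
            unfold tlr
            rw [if_pos (by rw [← h5]; exact hw)]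
          rw [h7]
          have h8 : θ t * (z.im / ((t - z.re) ^ 2 + z.im ^ 2)) ≤
              Real.pi / 2 * (16 / 9 * z.im * (1 / (t - (a + b) / 2) ^ 2)) := by
            apply mul_le_mul b2 h6 hP (by positivity)
          have h3 : 0 ≤ 3 * ε * (z.im / ((t - z.re) ^ 2 + z.im ^ 2)) := by positivity
          linarith
  rw [integral_add (p1.const_mul _) (t1.const_mul _), integral_const_mul, integral_const_mul, p2, t2] at hle
  have h9 : z.im ≤ ‖z - (((a + b) / 2 : ℝ) : ℂ)‖ := by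
    have := q3_im_dist (z := z) (c := (a + b) / 2)
    rwa [abs_of_pos hy] at this
  calc (1 / Real.pi) * ∫ t : ℝ, θ t * (z.im / ((t - z.re) ^ 2 + z.im ^ 2))
      ≤ (1 / Real.pi) * (3 * ε * Real.pi + Real.pi / 2 * (16 / 9 * z.im) * (1 / R)) := by
        apply mul_le_mul_of_nonneg_left hle (by positivity)
    _ = 3 * ε + 8 / 9 * (z.im / R) := by
        field_simp
        ring
    _ ≤ 3 * ε + ‖z - (((a + b) / 2 : ℝ) : ℂ)‖ / R := by
        have h10 : z.im / R ≤ ‖z - (((a + b) / 2 : ℝ) : ℂ)‖ / R := by gcongr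
        have h11 : 0 ≤ z.im / R := by positivity
        linarith

lemma q3_arg_lo (θ : ℝ → ℝ) (a b ε R : ℝ) (hA2 : ST_A2) (hε : 0 < ε) (hR : 0 < R)
    (hbd : BD θ a b ε R) (z : ℂ) (hz : z ∈ Uo) (hzc : ‖z - (((a + b) / 2 : ℝ) : ℂ)‖ ≤ R / 4)
    (hi : Integrable (fun t : ℝ => θ t * (z.im / ((t - z.re) ^ 2 + z.im ^ 2)))) :
    -(3 * ε + ‖z - (((a + b) / 2 : ℝ) : ℂ)‖ / R) ≤
    (1 / Real.pi) * ∫ t : ℝ, θ t * (z.im / ((t - z.re) ^ 2 + z.im ^ 2)) := by
  -- reflect
  let z' : ℂ := ⟨-z.re, z.im⟩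
  have hz' : z' ∈ Uo := hz
  have hbd' : BD (fun t => -θ (-t)) (-b) (-a) ε R := by
    refine ⟨?_, ?_, ?_⟩
    · intro t ht
      show -θ (-t) = 0
      rw [hbd.mid (-t) ⟨by linarith [ht.2], by linarith [ht.1]⟩, neg_zero]
    · intro t ht
      obtain ⟨h1, h2, h3⟩ := hbd.lf (-t) (by linarith)
      refine ⟨by linarith, by linarith, fun hw => ?_⟩
      have h4 : |(-t) - (a + b) / 2| ≤ R := by
        have : (-t) - (a + b) / 2 = -(t - (-b + -a) / 2) := by ring
        rw [this, abs_neg]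
        exact hw
      linarith [h3 h4]
    · intro t ht
      obtain ⟨h1, h2, h3⟩ := hbd.rt (-t) (by linarith)
      refine ⟨by linarith, by linarith, fun hw => ?_⟩
      have h4 : |(-t) - (a + b) / 2| ≤ R := by
        have : (-t) - (a + b) / 2 = -(t - (-b + -a) / 2) := by ring
        rw [this, abs_neg]
        exact hw
      linarith [h3 h4]
  have hn : ‖z' - (((-b + -a) / 2 : ℝ) : ℂ)‖ = ‖z - (((a + b) / 2 : ℝ) : ℂ)‖ := by
    rw [Complex.norm_def, Complex.norm_def, Complex.normSq_apply, Complex.normSq_apply]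
    congr 1
    simp only [sub_re, sub_im, ofReal_re, ofReal_im, z']
    ring
  have hfun : (fun t : ℝ => -θ (-t) * (z'.im / ((t - z'.re) ^ 2 + z'.im ^ 2))) =
      fun t : ℝ => (fun u : ℝ => -(θ u * (z.im / ((u - z.re) ^ 2 + z.im ^ 2)))) (-t) := by
    funext t
    show -θ (-t) * (z.im / ((t - (-z.re)) ^ 2 + z.im ^ 2)) = -(θ (-t) * (z.im / ((-t - z.re) ^ 2 + z.im ^ 2)))
    have : (t - (-z.re)) ^ 2 = (-t - z.re) ^ 2 := by ring
    rw [this]
    ring
  have hi' : Integrable (fun t : ℝ => -θ (-t) * (z'.im / ((t - z'.re) ^ 2 + z'.im ^ 2))) := by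
    rw [hfun]
    exact hi.neg.comp_neg
  have hm := q3_arg_up (fun t => -θ (-t)) (-b) (-a) ε R hA2 hε hR hbd' z' hz'
    (by rw [hn]; exact hzc) hi'
  have hint : ∫ t : ℝ, -θ (-t) * (z'.im / ((t - z'.re) ^ 2 + z'.im ^ 2)) =
      -∫ t : ℝ, θ t * (z.im / ((t - z.re) ^ 2 + z.im ^ 2)) := by
    rw [hfun, integral_neg_eq_self (fun u : ℝ => -(θ u * (z.im / ((u - z.re) ^ 2 + z.im ^ 2)))) volume,
      integral_neg]
  have hm2 : (1 / Real.pi) * ∫ t : ℝ, -θ (-t) * (z'.im / ((t - z'.re) ^ 2 + z'.im ^ 2)) ≤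
      3 * ε + ‖z' - (((-b + -a) / 2 : ℝ) : ℂ)‖ / R := hm
  rw [hint, hn] at hm2
  linarith

lemma q3_diff (θ : ℝ → ℝ) (a b ε R : ℝ) (hε : 0 < ε) (hR : 0 < R)
    (hbd : BD θ a b ε R) (z₁ z₂ : ℂ) (w : ℝ) (hw : 0 < w) (hz₁ : z₁ ∈ Uo) (hz₂ : z₂ ∈ Uo)
    (hc₁ : ‖z₁ - (((a + b) / 2 : ℝ) : ℂ)‖ ≤ R / 4) (hc₂ : ‖z₂ - (((a + b) / 2 : ℝ) : ℂ)‖ ≤ R / 4)
    (hwz : ∀ t : ℝ, t ∉ Ioo a b → (|t - z₂.re| + w) / 2 ≤ ‖(t : ℂ) - z₂‖) :
    ‖(1 / Real.pi : ℝ) * ∫ t : ℝ, ((θ t : ℝ) : ℂ) * (1 / ((t : ℂ) - z₁) - 1 / ((t : ℂ) - z₂))‖ ≤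
      24 * (ε * (Real.log (1 + ‖z₁ - z₂‖ / z₁.im) + Real.log (1 + ‖z₁ - z₂‖ / w))) + 2 * (‖z₁ - z₂‖ / R) := by
  have hy₁ : 0 < z₁.im := hz₁
  have hy₂ : 0 < z₂.im := hz₂
  have hpi := Real.pi_pos
  set Z : ℝ := ‖z₁ - z₂‖ with hZdef
  have hZ : 0 ≤ Z := norm_nonneg _
  obtain ⟨i1, e1⟩ := q3_h_int hy₁ hZ z₁.re
  obtain ⟨i2, e2⟩ := q3_h_int hw hZ z₂.re
  obtain ⟨i3, e3⟩ := q3_tl_int hR ((a + b) / 2)
  have hle : ‖∫ t : ℝ, ((θ t : ℝ) : ℂ) * (1 / ((t : ℂ) - z₁) - 1 / ((t : ℂ) - z₂))‖ ≤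
      ∫ t : ℝ, (36 * ε * (Z / ((|t - z₁.re| + z₁.im) * (|t - z₁.re| + z₁.im + Z)) +
        Z / ((|t - z₂.re| + w) * (|t - z₂.re| + w + Z))) + 8 / 9 * Real.pi * Z * tl ((a + b) / 2) R t) := by
    refine norm_integral_le_of_norm_le (((i1.add i2).const_mul _).add (i3.const_mul _)) ?_
    filter_upwards [q3_ae_ne a, q3_ae_ne b] with t hta htb
    show ‖((θ t : ℝ) : ℂ) * (1 / ((t : ℂ) - z₁) - 1 / ((t : ℂ) - z₂))‖ ≤
      36 * ε * (Z / ((|t - z₁.re| + z₁.im) * (|t - z₁.re| + z₁.im + Z)) +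
        Z / ((|t - z₂.re| + w) * (|t - z₂.re| + w + Z))) + 8 / 9 * Real.pi * Z * tl ((a + b) / 2) R t
    have ht1 : (t : ℂ) - z₁ ≠ 0 := by
      intro h
      have := congrArg Complex.im h
      simp at this
      linarith
    have ht2 : (t : ℂ) - z₂ ≠ 0 := by
      intro h
      have := congrArg Complex.im h
      simp at this
      linarith
    have hker : ‖((θ t : ℝ) : ℂ) * (1 / ((t : ℂ) - z₁) - 1 / ((t : ℂ) - z₂))‖ =
        |θ t| * (Z / (‖(t : ℂ) - z₁‖ * ‖(t : ℂ) - z₂‖)) := by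
      have h1 : 1 / ((t : ℂ) - z₁) - 1 / ((t : ℂ) - z₂) = (z₁ - z₂) / (((t : ℂ) - z₁) * ((t : ℂ) - z₂)) := by
        field_simp
        ring
      rw [h1, norm_mul, norm_div, norm_mul, Complex.norm_real, Real.norm_eq_abs]
    rw [hker]
    have hn1 : 0 ≤ Z / ((|t - z₁.re| + z₁.im) * (|t - z₁.re| + z₁.im + Z)) := q3_h_nonneg hy₁ hZ _
    have hn2 : 0 ≤ Z / ((|t - z₂.re| + w) * (|t - z₂.re| + w + Z)) := q3_h_nonneg hw hZ _
    have htl : 0 ≤ tl ((a + b) / 2) R t := by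
      unfold tl
      split_ifs
      · positivity
      · exact le_refl 0
    have hn3 : 0 ≤ 8 / 9 * Real.pi * Z * tl ((a + b) / 2) R t := by positivity
    by_cases hin : t ∈ Ioo a b
    · rw [hbd.mid t hin, abs_zero, zero_mul]
      positivity
    have hout : t < a ∨ b < t := by
      rcases lt_trichotomy t a with h | h | h
      · exact Or.inl h
      · exact absurd h hta
      · rcases lt_trichotomy t b with h' | h' | h'
        · exact absurd ⟨h, h'⟩ hin
        · exact absurd h' htb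
        · exact Or.inr h'
    have hth : |θ t| ≤ Real.pi / 2 ∧ (|t - (a + b) / 2| ≤ R → |θ t| ≤ 3 * ε) := by
      rcases hout with h | h
      · obtain ⟨h1, h2, h3⟩ := hbd.lf t h
        rw [abs_of_nonpos h2]
        exact ⟨by linarith, fun hh => by linarith [h3 hh]⟩
      · obtain ⟨h1, h2, h3⟩ := hbd.rt t h
        rw [abs_of_nonneg h1]
        exact ⟨h2, h3⟩
    have hre1 : |t - z₁.re| ≤ ‖(t : ℂ) - z₁‖ := by
      have := Complex.abs_re_le_norm ((t : ℂ) - z₁)
      simpa using this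
    have hre2 : |t - z₂.re| ≤ ‖(t : ℂ) - z₂‖ := by
      have := Complex.abs_re_le_norm ((t : ℂ) - z₂)
      simpa using this
    have him1 : z₁.im ≤ ‖(t : ℂ) - z₁‖ := by
      have := Complex.abs_im_le_norm ((t : ℂ) - z₁)
      have h2 : |((t : ℂ) - z₁).im| = z₁.im := by
        simp [abs_of_pos hy₁]
      rwa [h2] at this
    have hA : (|t - z₁.re| + z₁.im) / 2 ≤ ‖(t : ℂ) - z₁‖ := by linarith
    have hB := hwz t hin
    have hZAB : Z ≤ ‖(t : ℂ) - z₁‖ + ‖(t : ℂ) - z₂‖ := by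
      have h1 : z₁ - z₂ = ((t : ℂ) - z₂) - ((t : ℂ) - z₁) := by ring
      rw [hZdef, h1]
      have := norm_sub_le ((t : ℂ) - z₂) ((t : ℂ) - z₁)
      linarith
    have hA0 : 0 < ‖(t : ℂ) - z₁‖ := norm_pos_iff.2 ht1
    have hB0 : 0 < ‖(t : ℂ) - z₂‖ := norm_pos_iff.2 ht2
    by_cases hwin : |t - (a + b) / 2| ≤ R
    · have hk := q3_kernel (A := ‖(t : ℂ) - z₁‖) (B := ‖(t : ℂ) - z₂‖) (u := |t - z₁.re| + z₁.im)
        (w := |t - z₂.re| + w) (Z := Z) (by positivity) (by positivity) hZ hA hB hZAB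
      have h1 := mul_le_mul (hth.2 hwin) hk (by positivity) (by positivity)
      linarith
    · push Not at hwin
      have h7 : tl ((a + b) / 2) R t = 1 / (t - (a + b) / 2) ^ 2 := by
        unfold tl
        rw [if_pos hwin]
      have hd1 : 3 / 4 * |t - (a + b) / 2| ≤ ‖(t : ℂ) - z₁‖ := by
        have h1 : |z₁.re - (a + b) / 2| ≤ R / 4 := le_trans q3_re_dist hc₁
        have h2 : |t - (a + b) / 2| ≤ |t - z₁.re| + |z₁.re - (a + b) / 2| := abs_sub_le _ _ _
        linarith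
      have hd2 : 3 / 4 * |t - (a + b) / 2| ≤ ‖(t : ℂ) - z₂‖ := by
        have h1 : |z₂.re - (a + b) / 2| ≤ R / 4 := le_trans q3_re_dist hc₂
        have h2 : |t - (a + b) / 2| ≤ |t - z₂.re| + |z₂.re - (a + b) / 2| := abs_sub_le _ _ _
        linarith
      have hpos : 0 < |t - (a + b) / 2| := by linarith
      have h5 : 0 < (t - (a + b) / 2) ^ 2 := by
        have := pow_pos hpos 2
        rwa [sq_abs] at this
      have hprod : 9 / 16 * (t - (a + b) / 2) ^ 2 ≤ ‖(t : ℂ) - z₁‖ * ‖(t : ℂ) - z₂‖ := by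
        have := mul_le_mul hd1 hd2 (by positivity) hA0.le
        have e : 3 / 4 * |t - (a + b) / 2| * (3 / 4 * |t - (a + b) / 2|) = 9 / 16 * |t - (a + b) / 2| ^ 2 := by ring
        rw [e, sq_abs] at this
        exact this
      have h8 : Z / (‖(t : ℂ) - z₁‖ * ‖(t : ℂ) - z₂‖) ≤ 16 / 9 * Z * (1 / (t - (a + b) / 2) ^ 2) := by
        rw [mul_one_div, div_le_div_iff₀ (by positivity) h5]
        nlinarith [mul_le_mul_of_nonneg_left hprod hZ]
      have h9 := mul_le_mul hth.1 h8 (by positivity) (by positivity)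
      rw [h7]
      have h10 : 0 ≤ 36 * ε * (Z / ((|t - z₁.re| + z₁.im) * (|t - z₁.re| + z₁.im + Z)) +
        Z / ((|t - z₂.re| + w) * (|t - z₂.re| + w + Z))) := by positivity
      linarith
  have i12 : Integrable (fun t : ℝ => Z / ((|t - z₁.re| + z₁.im) * (|t - z₁.re| + z₁.im + Z)) +
        Z / ((|t - z₂.re| + w) * (|t - z₂.re| + w + Z))) := i1.add i2
  rw [integral_add (i12.const_mul _) (i3.const_mul _), integral_const_mul, integral_const_mul,
    e3] at hle
  have hadd : ∫ t : ℝ, (Z / ((|t - z₁.re| + z₁.im) * (|t - z₁.re| + z₁.im + Z)) +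
        Z / ((|t - z₂.re| + w) * (|t - z₂.re| + w + Z))) =
        2 * Real.log (1 + Z / z₁.im) + 2 * Real.log (1 + Z / w) := by
    rw [integral_add i1 i2, e1, e2]
  rw [hadd] at hle
  have hl1 : 0 ≤ Real.log (1 + Z / z₁.im) := Real.log_nonneg (by
    have : 0 ≤ Z / z₁.im := by positivity
    linarith)
  have hl2 : 0 ≤ Real.log (1 + Z / w) := Real.log_nonneg (by
    have : 0 ≤ Z / w := by positivity
    linarith)
  rw [norm_mul, Complex.norm_real, Real.norm_eq_abs, abs_of_pos (by positivity : 0 < 1 / Real.pi)]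
  have hpi3 := Real.pi_gt_three
  have hinv : 1 / Real.pi ≤ 1 / 3 := by
    apply one_div_le_one_div_of_le (by norm_num) hpi3.le
  calc (1 / Real.pi) * ‖∫ t : ℝ, ((θ t : ℝ) : ℂ) * (1 / ((t : ℂ) - z₁) - 1 / ((t : ℂ) - z₂))‖
      ≤ (1 / Real.pi) * (36 * ε * (2 * Real.log (1 + Z / z₁.im) + 2 * Real.log (1 + Z / w)) +
        8 / 9 * Real.pi * Z * (2 / R)) := by
        apply mul_le_mul_of_nonneg_left hle (by positivity)
    _ = (1 / Real.pi) * (72 * (ε * (Real.log (1 + Z / z₁.im) + Real.log (1 + Z / w)))) + 16 / 9 * (Z / R) := by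
        field_simp
        ring
    _ ≤ (1 / 3) * (72 * (ε * (Real.log (1 + Z / z₁.im) + Real.log (1 + Z / w)))) + 16 / 9 * (Z / R) := by
        gcongr
    _ ≤ 24 * (ε * (Real.log (1 + Z / z₁.im) + Real.log (1 + Z / w))) + 2 * (Z / R) := by
        have : 0 ≤ Z / R := by positivity
        linarith

/-! ### the function G -/

variable {Hm Hp : ℝ} {C : Set ℝ}

def GG (cd : CD Hm Hp C) (a b N : ℝ) (z : ℂ) : ℂ :=
  Complex.log (cd.f z - N) - (Complex.log (z - a) + Complex.log (z - b)) / 2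

lemma q3_real_of_im {z : ℂ} (h : z.im = 0) : z = ((z.re : ℝ) : ℂ) := by
  apply Complex.ext
  · simp
  · simpa using h

lemma q3_mem_f (hP2 : ST_P2) (hHm : 0 < Hm) (cd : CD Hm Hp C) (a b N : ℝ)
    (hN : ∀ t ∈ Icc a b, Nf cd t = N) (hN' : ∀ t : ℝ, Nf cd t = N → t ∈ Icc a b)
    (z : ℂ) (hz : z ∈ Ucm {a, b}) : cd.f z - N ∈ {w : ℂ | 0 ≤ w.im ∧ w ≠ 0} := by
  obtain ⟨h0, h1⟩ := hz
  have ha : z ≠ ((a : ℝ) : ℂ) := h1 a (by simp)
  have hb : z ≠ ((b : ℝ) : ℂ) := h1 b (by simp)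
  rcases lt_or_eq_of_le h0 with h | h
  · have h2 := cd.im_pos z h
    refine ⟨by simpa using h2.le, fun h3 => ?_⟩
    have := congrArg Complex.im h3
    simp at this
    linarith
  · have hzr := q3_real_of_im h.symm
    set t := z.re with ht
    rw [hzr]
    have h2 := cd.im_nonneg t
    refine ⟨by simpa using h2, fun h3 => ?_⟩
    have h4 : (cd.f t).re = N := by
      have := congrArg Complex.re h3
      simp at this
      linarith
    have h5 : (cd.f t).im = 0 := by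
      have := congrArg Complex.im h3
      simpa using this
    have h6 := hN' t h4
    have hta : t ≠ a := fun e => ha (by rw [hzr, e])
    have htb : t ≠ b := fun e => hb (by rw [hzr, e])
    have hab : a < b := by
      have h7 : a < t := lt_of_le_of_ne h6.1 (Ne.symm hta)
      have h8 : t < b := lt_of_le_of_ne h6.2 htb
      linarith
    obtain ⟨-, -, -, -, -, -, -, -, -, -, -, hP⟩ := hP2 Hm Hp C cd hHm
    have h9 := hP a b hab (fun u hu => by rw [hN u hu, hN a ⟨le_refl a, hab.le⟩]) t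
      ⟨lt_of_le_of_ne h6.1 (Ne.symm hta), lt_of_le_of_ne h6.2 htb⟩
    have h10 : vf cd t = (cd.f t).im := rfl
    rw [h10] at h9
    linarith

lemma q3_GG_cont (hP2 : ST_P2) (hHm : 0 < Hm) (cd : CD Hm Hp C) (a b N : ℝ)
    (hN : ∀ t ∈ Icc a b, Nf cd t = N) (hN' : ∀ t : ℝ, Nf cd t = N → t ∈ Icc a b) :
    ContinuousOn (GG cd a b N) (Ucm {a, b}) := by
  have h1 : ContinuousOn (fun z : ℂ => Complex.log (cd.f z - N)) (Ucm {a, b}) := by
    refine q3_log_cont.comp ((cd.cont.mono (fun z hz => hz.1)).sub continuousOn_const) ?_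
    intro z hz
    exact q3_mem_f hP2 hHm cd a b N hN hN' z hz
  have h2 : ∀ s ∈ ({a, b} : Finset ℝ), ContinuousOn (fun z : ℂ => Complex.log (z - s)) (Ucm {a, b}) := by
    intro s hs
    refine q3_log_cont.comp (continuousOn_id.sub continuousOn_const) ?_
    intro z hz
    refine ⟨by simpa using hz.1, ?_⟩
    exact sub_ne_zero.2 (hz.2 s hs)
  exact h1.sub (((h2 a (by simp)).add (h2 b (by simp))).div_const 2)

lemma q3_GG_diff (cd : CD Hm Hp C) (a b N : ℝ) : DifferentiableOn ℂ (GG cd a b N) Uo := by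
  have h0 : ∀ w : ℂ, 0 < w.im → w ∈ slitPlane := fun w hw => by
    rw [mem_slitPlane_iff]
    exact Or.inr hw.ne'
  have h1 : DifferentiableOn ℂ (fun z : ℂ => Complex.log (cd.f z - N)) Uo := by
    refine DifferentiableOn.clog (cd.ana.sub_const _) ?_
    intro z hz
    exact h0 _ (by simpa using cd.im_pos z hz)
  have h2 : ∀ s : ℝ, DifferentiableOn ℂ (fun z : ℂ => Complex.log (z - s)) Uo := by
    intro s
    refine DifferentiableOn.clog (differentiableOn_id.sub_const _) ?_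
    intro z hz
    have hz' : 0 < z.im := hz
    exact h0 _ (by simpa using hz')
  exact h1.sub (((h2 a).add (h2 b)).div_const 2)

lemma q3_arg_pos {w : ℂ} (hw : 0 < w.im) : 0 < w.arg ∧ w.arg < Real.pi := by
  constructor
  · rcases lt_or_eq_of_le (Complex.arg_nonneg_iff.2 hw.le) with h | h
    · exact h
    · have := (Complex.arg_eq_zero_iff.1 h.symm).2
      linarith
  · exact Complex.arg_lt_pi_iff.2 (Or.inr hw.ne')

lemma q3_GG_im (cd : CD Hm Hp C) (a b N : ℝ) (z : ℂ) :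
    (GG cd a b N z).im = (cd.f z - N).arg - ((z - a).arg + (z - b).arg) / 2 := by
  unfold GG
  have h2 : ((Complex.log (z - a) + Complex.log (z - b)) / 2).im = ((z - a).arg + (z - b).arg) / 2 := by
    have : (Complex.log (z - a) + Complex.log (z - b)) / 2 =
      (Complex.log (z - a) + Complex.log (z - b)) / ((2 : ℝ) : ℂ) := by norm_num
    rw [this, Complex.div_ofReal_im, Complex.add_im, Complex.log_im, Complex.log_im]
  rw [Complex.sub_im, h2, Complex.log_im]

lemma q3_GG_im_bd (cd : CD Hm Hp C) (a b N : ℝ) (z : ℂ) (hz : z ∈ Uo) :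
    -Real.pi < (GG cd a b N z).im ∧ (GG cd a b N z).im < Real.pi := by
  rw [q3_GG_im]
  have h1 := q3_arg_pos (w := cd.f z - N) (by simpa using cd.im_pos z hz)
  have hz' : 0 < z.im := hz
  have h2 := q3_arg_pos (w := z - a) (by simpa using hz')
  have h3 := q3_arg_pos (w := z - b) (by simpa using hz')
  constructor <;> linarith [h1.1, h1.2, h2.1, h2.2, h3.1, h3.2]

lemma q3_GG_exp (cd : CD Hm Hp C) (a b N : ℝ) (z : ℂ) (hz : z ∈ Uo) :
    Complex.exp (GG cd a b N z) = (cd.f z - N) / qc a b z := by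
  have hz' : 0 < z.im := hz
  have h1 : cd.f z - N ≠ 0 := by
    intro h
    have := congrArg Complex.im h
    have h2 := cd.im_pos z hz
    simp at this
    linarith
  have h2 : z - a ≠ 0 := by
    intro h
    have := congrArg Complex.im h
    simp at this
    linarith
  have h3 : z - b ≠ 0 := by
    intro h
    have := congrArg Complex.im h
    simp at this
    linarith
  unfold GG qc
  rw [Complex.exp_sub, Complex.exp_log h1]
  congr 1
  rw [Complex.cpow_def_of_ne_zero h2, Complex.cpow_def_of_ne_zero h3, ← Complex.exp_add]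
  congr 1
  ring

lemma q3_GG_arg (cd : CD Hm Hp C) (a b N : ℝ) (z : ℂ) (hz : z ∈ Uo) :
    ((cd.f z - N) / qc a b z).arg = (GG cd a b N z).im := by
  rw [← q3_GG_exp cd a b N z hz, Complex.arg_exp]
  have h := q3_GG_im_bd cd a b N z hz
  exact (toIocMod_eq_self Real.two_pi_pos).2 ⟨h.1, by linarith [h.2]⟩

lemma q3_GG_norm (cd : CD Hm Hp C) (a b N : ℝ) (z : ℂ) (hz : z ∈ Uo) :
    Real.log ‖(cd.f z - N) / qc a b z‖ = (GG cd a b N z).re := by
  rw [← q3_GG_exp cd a b N z hz, Complex.norm_exp, Real.log_exp]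

lemma q3_arg_small {w : ℂ} {e : ℝ} (hre : 0 < w.re) (him : 0 ≤ w.im) (h : w.im ≤ e * w.re) :
    0 ≤ w.arg ∧ w.arg < Real.pi / 2 ∧ w.arg ≤ e := by
  have h1 : 0 ≤ w.arg := Complex.arg_nonneg_iff.2 him
  have h2 : w.arg < Real.pi / 2 := (abs_lt.1 (Complex.abs_arg_lt_pi_div_two_iff.2 (Or.inl hre))).2
  refine ⟨h1, h2, ?_⟩
  have h3 := Real.le_tan h1 h2
  rw [Complex.tan_arg] at h3
  have h4 : w.im / w.re ≤ e := by
    rw [div_le_iff₀ hre]
    exact h
  linarith

lemma q3_arg_big {w : ℂ} {e : ℝ} (hre : w.re < 0) (him : 0 ≤ w.im) (h : w.im ≤ e * (-w.re)) :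
    Real.pi / 2 < w.arg ∧ w.arg ≤ Real.pi ∧ Real.pi - e ≤ w.arg := by
  have h1 : Real.pi / 2 < w.arg := by
    by_contra hc
    push Not at hc
    rcases Complex.arg_le_pi_div_two_iff.1 hc with h2 | h2
    · linarith
    · linarith
  have h2 : w.arg ≤ Real.pi := Complex.arg_le_pi w
  refine ⟨h1, h2, ?_⟩
  have h3 := Real.le_tan (x := Real.pi - w.arg) (by linarith) (by linarith)
  rw [Real.tan_pi_sub, Complex.tan_arg] at h3
  have h4 : -(w.im / w.re) ≤ e := by
    rw [← div_neg, div_le_iff₀ (by linarith)]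
    exact h
  linarith

lemma q3_arg_pos_real {t s : ℝ} (h : s < t) : ((t : ℂ) - s).arg = 0 := by
  rw [← Complex.ofReal_sub]
  exact Complex.arg_ofReal_of_nonneg (by linarith)

lemma q3_arg_neg_real {t s : ℝ} (h : t < s) : ((t : ℂ) - s).arg = Real.pi := by
  rw [← Complex.ofReal_sub]
  exact Complex.arg_ofReal_of_neg (by linarith)

lemma q3_bd (hP2 : ST_P2) (hHm : 0 < Hm) (cd : CD Hm Hp C) (a b N ε R : ℝ) (hab : a ≤ b)
    (hN : ∀ t ∈ Icc a b, Nf cd t = N) (hN' : ∀ t : ℝ, Nf cd t = N → t ∈ Icc a b)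
    (hv : ∀ t : ℝ, |t - (a + b) / 2| ≤ R → t ∉ Icc a b → vf cd t ≤ 3 * ε * |Nf cd t - N|) :
    BD (fun t : ℝ => (GG cd a b N t).im) a b ε R := by
  refine ⟨?_, ?_, ?_⟩
  · intro t ht
    show (GG cd a b N t).im = 0
    rw [q3_GG_im, q3_arg_pos_real ht.1, q3_arg_neg_real ht.2]
    have hab' : a < b := lt_trans ht.1 ht.2
    obtain ⟨-, -, -, -, -, -, -, -, -, -, -, hP⟩ := hP2 Hm Hp C cd hHm
    have h9 := hP a b hab' (fun u hu => by rw [hN u hu, hN a ⟨le_refl a, hab⟩]) t ht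
    have h1 : (cd.f t - N).re = 0 := by
      have := hN t ⟨ht.1.le, ht.2.le⟩
      unfold Nf at this
      simp [this]
    have h2 : 0 < (cd.f t - N).im := by
      unfold vf at h9
      simpa using h9
    have h3 : (cd.f t - N).arg = Real.pi / 2 := Complex.arg_eq_pi_div_two_iff.2 ⟨h1, h2⟩
    rw [h3]
    ring
  · intro t ht
    show 0 ≤ (GG cd a b N t).im ∧ (GG cd a b N t).im ≤ Real.pi / 2 ∧
      (|t - (a + b) / 2| ≤ R → (GG cd a b N t).im ≤ 3 * ε)
    rw [q3_GG_im, q3_arg_pos_real (lt_of_le_of_lt hab ht), q3_arg_pos_real ht]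
    have hre : 0 < (cd.f t - N).re := by
      have h1 : N ≤ Nf cd t := by
        rw [← hN b ⟨hab, le_refl b⟩]
        exact cd.re_mono b t ht.le
      have h2 : Nf cd t ≠ N := fun e => by
        have := (hN' t e).2
        linarith
      have h3 : N < Nf cd t := lt_of_le_of_ne h1 (Ne.symm h2)
      unfold Nf at h3
      simpa using h3
    have him : 0 ≤ (cd.f t - N).im := by
      simpa using cd.im_nonneg t
    have h4 := q3_arg_small (e := (cd.f t - N).im / (cd.f t - N).re) hre him (by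
      rw [div_mul_cancel₀ _ hre.ne'])
    refine ⟨by linarith [h4.1], by linarith [h4.2.1], fun hw => ?_⟩
    have h5 := hv t hw (fun h => by linarith [h.2])
    have h6 : (cd.f t - N).im = vf cd t := by simp [vf]
    have h7 : (cd.f t - N).re = Nf cd t - N := by simp [Nf]
    have h8 := q3_arg_small (e := 3 * ε) hre him (by
      rw [h6, h7]
      rw [h7] at hre
      rwa [abs_of_pos hre] at h5)
    linarith [h8.2.2]
  · intro t ht
    show -(Real.pi / 2) ≤ (GG cd a b N t).im ∧ (GG cd a b N t).im ≤ 0 ∧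
      (|t - (a + b) / 2| ≤ R → -(3 * ε) ≤ (GG cd a b N t).im)
    rw [q3_GG_im, q3_arg_neg_real ht, q3_arg_neg_real (lt_of_lt_of_le ht hab)]
    have hre : (cd.f t - N).re < 0 := by
      have h1 : Nf cd t ≤ N := by
        rw [← hN a ⟨le_refl a, hab⟩]
        exact cd.re_mono t a ht.le
      have h2 : Nf cd t ≠ N := fun e => by
        have := (hN' t e).1
        linarith
      have h3 : Nf cd t < N := lt_of_le_of_ne h1 h2
      unfold Nf at h3
      simpa using h3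
    have him : 0 ≤ (cd.f t - N).im := by
      simpa using cd.im_nonneg t
    have h4 := q3_arg_big (e := (cd.f t - N).im / (-(cd.f t - N).re)) hre him (by
      rw [div_mul_cancel₀ _ (by linarith)])
    refine ⟨by linarith [h4.1], by linarith [h4.2.1], fun hw => ?_⟩
    have h5 := hv t hw (fun h => by linarith [h.1])
    have h6 : (cd.f t - N).im = vf cd t := by simp [vf]
    have h7 : (cd.f t - N).re = Nf cd t - N := by simp [Nf]
    have h8 := q3_arg_big (e := 3 * ε) hre him (by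
      rw [h6, h7]
      rw [h7] at hre
      rwa [abs_of_neg hre] at h5)
    linarith [h8.2.2]

/-! ### growth -/

lemma q3_im_lower (hP1 : ST_P1) (cd : CD Hm Hp C) : ∃ κ : ℝ, 0 < κ ∧ ∀ z ∈ Uo,
    κ * z.im / (1 + ‖z‖) ^ 2 ≤ (cd.f z).im := by
  obtain ⟨h1, -, -, -, -, -⟩ := hP1 Hm Hp C cd
  have hpi := Real.pi_pos
  refine ⟨(cd.f I).im / 2, by
    have := cd.im_pos I (by simp)
    linarith, ?_⟩
  intro z hz
  have hy : 0 < z.im := hz
  obtain ⟨i1, e1⟩ := h1 0 1 one_pos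
  obtain ⟨i2, e2⟩ := h1 z.re z.im hy
  have e0 : Yf cd 0 1 = (cd.f I).im := by
    unfold Yf
    simp
  have e3 : Yf cd z.re z.im = (cd.f z).im := by
    unfold Yf
    rw [Complex.re_add_im]
  rw [← e0, ← e3, e1, e2]
  have hle : ∫ t : ℝ, (z.im / (2 * (1 + ‖z‖) ^ 2)) * (vf cd t * (1 / ((t - 0) ^ 2 + 1 ^ 2))) ≤
      ∫ t : ℝ, vf cd t * (z.im / ((t - z.re) ^ 2 + z.im ^ 2)) := by
    refine integral_mono (i1.const_mul _) i2 ?_
    intro t
    show (z.im / (2 * (1 + ‖z‖) ^ 2)) * (vf cd t * (1 / ((t - 0) ^ 2 + 1 ^ 2))) ≤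
      vf cd t * (z.im / ((t - z.re) ^ 2 + z.im ^ 2))
    have hv : 0 ≤ vf cd t := cd.im_nonneg t
    have hz0 := norm_nonneg z
    have hD : (t - z.re) ^ 2 + z.im ^ 2 ≤ 2 * (1 + ‖z‖) ^ 2 * ((t - 0) ^ 2 + 1 ^ 2) := by
      have hzz : ‖z‖ ^ 2 = z.re ^ 2 + z.im ^ 2 := by
        rw [← Complex.normSq_eq_norm_sq, Complex.normSq_apply]
        ring
      have a1 : (t - z.re) ^ 2 + z.im ^ 2 ≤ 2 * t ^ 2 + 2 * ‖z‖ ^ 2 := by
        rw [hzz]
        nlinarith [sq_nonneg (t + z.re), sq_nonneg z.im]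
      have a2 : 2 * t ^ 2 + 2 * ‖z‖ ^ 2 ≤ 2 * (1 + ‖z‖ ^ 2) * (t ^ 2 + 1) := by
        nlinarith [mul_nonneg (sq_nonneg ‖z‖) (sq_nonneg t)]
      have a3 : 2 * (1 + ‖z‖ ^ 2) * (t ^ 2 + 1) ≤ 2 * (1 + ‖z‖) ^ 2 * ((t - 0) ^ 2 + 1 ^ 2) := by
        have : 1 + ‖z‖ ^ 2 ≤ (1 + ‖z‖) ^ 2 := by nlinarith
        have h5 : (0 : ℝ) ≤ t ^ 2 + 1 := by positivity
        have h6 := mul_le_mul_of_nonneg_right this h5
        have h7 : (t - 0) ^ 2 + 1 ^ 2 = t ^ 2 + 1 := by ring
        rw [h7]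
        nlinarith
      linarith
    have hden : 0 < (t - z.re) ^ 2 + z.im ^ 2 := by positivity
    have hk : z.im / (2 * (1 + ‖z‖) ^ 2) * (1 / ((t - 0) ^ 2 + 1 ^ 2)) ≤ z.im / ((t - z.re) ^ 2 + z.im ^ 2) := by
      rw [div_mul_div_comm, mul_one]
      exact div_le_div_of_nonneg_left hy.le hden hD
    calc (z.im / (2 * (1 + ‖z‖) ^ 2)) * (vf cd t * (1 / ((t - 0) ^ 2 + 1 ^ 2)))
        = vf cd t * (z.im / (2 * (1 + ‖z‖) ^ 2) * (1 / ((t - 0) ^ 2 + 1 ^ 2))) := by ring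
      _ ≤ vf cd t * (z.im / ((t - z.re) ^ 2 + z.im ^ 2)) := mul_le_mul_of_nonneg_left hk hv
  rw [integral_const_mul] at hle
  have hle2 := mul_le_mul_of_nonneg_left hle (by positivity : (0 : ℝ) ≤ 1 / Real.pi)
  have hz1 : (1 + ‖z‖) ≠ 0 := by positivity
  calc 1 / Real.pi * (∫ t : ℝ, vf cd t * (1 / ((t - 0) ^ 2 + 1 ^ 2))) / 2 * z.im / (1 + ‖z‖) ^ 2
      = 1 / Real.pi * (z.im / (2 * (1 + ‖z‖) ^ 2) * ∫ t : ℝ, vf cd t * (1 / ((t - 0) ^ 2 + 1 ^ 2))) := by
        field_simp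
    _ ≤ _ := hle2

lemma q3_log_shift (s : ℝ) (z : ℂ) (hz : z ∈ Uo) :
    ‖Complex.log (z - s)‖ ≤ Real.log (1 + |s|) + Real.log (1 + ‖z‖) + |Real.log z.im| + Real.pi := by
  have hy : 0 < z.im := hz
  have h0 := q3_norm_log (z - s)
  have h1 : z.im ≤ ‖z - s‖ := by
    have := q3_im_dist (z := z) (c := s)
    rwa [abs_of_pos hy] at this
  have h2 : ‖z - s‖ ≤ (1 + |s|) * (1 + ‖z‖) := by
    have := norm_sub_le z (s : ℂ)
    rw [Complex.norm_real, Real.norm_eq_abs] at this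
    nlinarith [norm_nonneg z, abs_nonneg s]
  have h3 : Real.log z.im ≤ Real.log ‖z - s‖ := Real.log_le_log hy h1
  have h4 : Real.log ‖z - s‖ ≤ Real.log (1 + |s|) + Real.log (1 + ‖z‖) := by
    rw [← Real.log_mul (by positivity) (by positivity)]
    exact Real.log_le_log (by linarith) h2
  have h5 : 0 ≤ Real.log (1 + |s|) := Real.log_nonneg (by linarith [abs_nonneg s])
  have h6 : 0 ≤ Real.log (1 + ‖z‖) := Real.log_nonneg (by linarith [norm_nonneg z])
  have h7 := neg_abs_le (Real.log z.im)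
  have h8 := abs_nonneg (Real.log z.im)
  have h9 : |Real.log ‖z - s‖| ≤ Real.log (1 + |s|) + Real.log (1 + ‖z‖) + |Real.log z.im| := by
    rw [abs_le]
    constructor <;> linarith
  linarith

lemma q3_growth (hP1 : ST_P1) (cd : CD Hm Hp C) (a b N : ℝ) : ∃ A : ℝ,
    (∀ z ∈ Uo, ‖GG cd a b N z‖ ≤ A * (1 + |Real.log z.im| + Real.log (1 + ‖z‖))) ∧
    (∀ z ∈ Uo, |(GG cd a b N z).im| ≤ A * (1 + Real.log (1 + ‖z‖))) := by
  obtain ⟨κ, hκ, hlow⟩ := q3_im_lower hP1 cd
  obtain ⟨A0, hA0⟩ := cd.growth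
  have hpi := Real.pi_pos
  set B : ℝ := |A0| + |N| + |Real.log κ| + Real.pi + Real.log (1 + |a|) + Real.log (1 + |b|) + Real.pi with hB
  have hla : 0 ≤ Real.log (1 + |a|) := Real.log_nonneg (by linarith [abs_nonneg a])
  have hlb : 0 ≤ Real.log (1 + |b|) := Real.log_nonneg (by linarith [abs_nonneg b])
  have hBpi : Real.pi ≤ B := by
    have := abs_nonneg A0
    have := abs_nonneg N
    have := abs_nonneg (Real.log κ)
    linarith
  refine ⟨B + 3, ?_, ?_⟩
  · intro z hz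
    have hy : 0 < z.im := hz
    have hL : 0 ≤ Real.log (1 + ‖z‖) := Real.log_nonneg (by linarith [norm_nonneg z])
    have hl := abs_nonneg (Real.log z.im)
    have hfz := cd.im_pos z hz
    have h1 := q3_log_shift a z hz
    have h2 := q3_log_shift b z hz
    have h3 := q3_norm_log (cd.f z - N)
    have h4 : (cd.f z).im ≤ ‖cd.f z - N‖ := by
      have := q3_im_dist (z := cd.f z) (c := N)
      rwa [abs_of_pos hfz] at this
    have hpos : 0 < ‖cd.f z - N‖ := lt_of_lt_of_le hfz h4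
    have h5 : Real.log κ + Real.log z.im - 2 * Real.log (1 + ‖z‖) ≤ Real.log ‖cd.f z - N‖ := by
      have e1 : Real.log (κ * z.im / (1 + ‖z‖) ^ 2) = Real.log κ + Real.log z.im - 2 * Real.log (1 + ‖z‖) := by
        rw [Real.log_div (by positivity) (by positivity), Real.log_mul hκ.ne' hy.ne', Real.log_pow]
        norm_num
      rw [← e1]
      exact Real.log_le_log (by positivity) (le_trans (hlow z hz) h4)
    have h6 : Real.log ‖cd.f z - N‖ ≤ |A0| + |N| + Real.log (1 + ‖z‖) := by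
      have e1 : ‖cd.f z - N‖ ≤ |A0| + |N| + Real.log (1 + ‖z‖) := by
        have e2 := norm_sub_le (cd.f z) (N : ℂ)
        rw [Complex.norm_real, Real.norm_eq_abs] at e2
        have e3 := hA0 z hy.le
        have e4 := le_abs_self A0
        linarith
      have e5 := Real.log_le_sub_one_of_pos hpos
      linarith
    have h7 : |Real.log ‖cd.f z - N‖| ≤ |A0| + |N| + |Real.log κ| + |Real.log z.im| + 2 * Real.log (1 + ‖z‖) := by
      rw [abs_le]
      have g1 := neg_abs_le (Real.log κ)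
      have g2 := neg_abs_le (Real.log z.im)
      have g3 := abs_nonneg A0
      have g4 := abs_nonneg N
      have g5 := abs_nonneg (Real.log κ)
      constructor <;> linarith
    have h8 : ‖GG cd a b N z‖ ≤ ‖Complex.log (cd.f z - N)‖ +
        (‖Complex.log (z - a)‖ + ‖Complex.log (z - b)‖) / 2 := by
      unfold GG
      refine le_trans (norm_sub_le _ _) ?_
      have g1 : ‖(Complex.log (z - a) + Complex.log (z - b)) / 2‖ ≤
          (‖Complex.log (z - a)‖ + ‖Complex.log (z - b)‖) / 2 := by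
        rw [norm_div]
        have g2 : ‖(2 : ℂ)‖ = 2 := by simp
        rw [g2]
        have g3 := norm_add_le (Complex.log (z - a)) (Complex.log (z - b))
        linarith
      linarith
    have h9 : 0 ≤ B * |Real.log z.im| := by
      have : 0 ≤ B := by linarith
      positivity
    have h10 : 0 ≤ B * Real.log (1 + ‖z‖) := by
      have : 0 ≤ B := by linarith
      positivity
    have h11 : (B + 3) * (1 + |Real.log z.im| + Real.log (1 + ‖z‖)) =
        B + 3 + B * |Real.log z.im| + 3 * |Real.log z.im| + B * Real.log (1 + ‖z‖) + 3 * Real.log (1 + ‖z‖) := by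
      ring
    rw [h11]
    have h12 : ‖GG cd a b N z‖ ≤ B + 2 * |Real.log z.im| + 3 * Real.log (1 + ‖z‖) := by
      rw [hB]
      linarith
    linarith
  · intro z hz
    have hL : 0 ≤ Real.log (1 + ‖z‖) := Real.log_nonneg (by linarith [norm_nonneg z])
    have h := q3_GG_im_bd cd a b N z hz
    have h1 : |(GG cd a b N z).im| ≤ Real.pi := abs_le.2 ⟨h.1.le, h.2.le⟩
    have h2 : 0 ≤ (B + 3) * Real.log (1 + ‖z‖) := by
      have : 0 ≤ B + 3 := by linarith
      positivity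
    have h3 : (B + 3) * (1 + Real.log (1 + ‖z‖)) = B + 3 + (B + 3) * Real.log (1 + ‖z‖) := by ring
    rw [h3]
    linarith

/-! ### final assembly -/

lemma q3_main_diff (hA2 : ST_A2) (hP1 : ST_P1) (hP2 : ST_P2) (hHm : 0 < Hm) (cd : CD Hm Hp C)
    (a b N ε R : ℝ) (hε : 0 < ε) (hR : 0 < R) (hab : a ≤ b)
    (hN : ∀ t ∈ Icc a b, Nf cd t = N) (hN' : ∀ t : ℝ, Nf cd t = N → t ∈ Icc a b)
    (hv : ∀ t : ℝ, |t - (a + b) / 2| ≤ R → t ∉ Icc a b → vf cd t ≤ 3 * ε * |Nf cd t - N|)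
    (z₁ z₂ : ℂ) (w : ℝ) (hw : 0 < w) (hz₁ : z₁ ∈ Uo) (hz₂ : z₂ ∈ Uo)
    (hc₁ : ‖z₁ - (((a + b) / 2 : ℝ) : ℂ)‖ ≤ R / 4) (hc₂ : ‖z₂ - (((a + b) / 2 : ℝ) : ℂ)‖ ≤ R / 4)
    (hwz : ∀ t : ℝ, t ∉ Ioo a b → (|t - z₂.re| + w) / 2 ≤ ‖(t : ℂ) - z₂‖) :
    |(GG cd a b N z₁).re - (GG cd a b N z₂).re| ≤
      24 * (ε * (Real.log (1 + ‖z₁ - z₂‖ / z₁.im) + Real.log (1 + ‖z₁ - z₂‖ / w))) + 2 * (‖z₁ - z₂‖ / R) := by
  obtain ⟨A, g1, g2⟩ := q3_growth hP1 cd a b N
  obtain ⟨-, h2⟩ := hA2 (GG cd a b N) {a, b} A (q3_GG_cont hP2 hHm cd a b N hN hN') (q3_GG_diff cd a b N) g1 g2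
  have h3 := (h2 z₁ hz₁ z₂ hz₂).2
  have h4 := q3_diff (fun t : ℝ => (GG cd a b N t).im) a b ε R hε hR
    (q3_bd hP2 hHm cd a b N ε R hab hN hN' hv) z₁ z₂ w hw hz₁ hz₂ hc₁ hc₂ hwz
  rw [← Complex.sub_re]
  refine le_trans (Complex.abs_re_le_norm _) ?_
  rw [h3]
  exact h4

theorem st_Q3 (hA2 : ST_A2) (hP1 : ST_P1) (hP2 : ST_P2) (hP3 : ST_P3) : ST_Q3 := by
  refine ⟨48, by norm_num, ?_⟩
  intro ε Hm Hp C cd hHm hε hε1 a b N R hab hbR hR hN hN' hv
  have hlog : ∀ x : ℝ, 0 ≤ x → 0 ≤ Real.log (1 + x) := fun x hx => Real.log_nonneg (by linarith)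
  refine ⟨?_, ?_, ?_⟩
  · intro z hz hzc
    obtain ⟨A, g1, g2⟩ := q3_growth hP1 cd a b N
    obtain ⟨h1, -⟩ := hA2 (GG cd a b N) {a, b} A (q3_GG_cont hP2 hHm cd a b N hN hN') (q3_GG_diff cd a b N) g1 g2
    obtain ⟨h1a, h1b⟩ := h1 z hz
    rw [q3_GG_arg cd a b N z hz, h1b]
    have hbd := q3_bd hP2 hHm cd a b N ε R hab hN hN' hv
    have hu := q3_arg_up (fun t : ℝ => (GG cd a b N t).im) a b ε R hA2 hε hR hbd z hz hzc h1a
    have hl := q3_arg_lo (fun t : ℝ => (GG cd a b N t).im) a b ε R hA2 hε hR hbd z hz hzc h1a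
    exact abs_le.2 ⟨hl, hu⟩
  · intro z₁ hz₁ z₂ hz₂ hc₁ hc₂
    rw [q3_GG_norm cd a b N z₁ hz₁, q3_GG_norm cd a b N z₂ hz₂]
    have hy₁ : 0 < z₁.im := hz₁
    have hy₂ : 0 < z₂.im := hz₂
    have h := q3_main_diff hA2 hP1 hP2 hHm cd a b N ε R hε hR hab hN hN' hv z₁ z₂ z₂.im hy₂ hz₁ hz₂ hc₁ hc₂
      (fun t _ => by
        have e1 := Complex.abs_re_le_norm ((t : ℂ) - z₂)
        have e2 := Complex.abs_im_le_norm ((t : ℂ) - z₂)
        simp only [sub_re, sub_im, ofReal_re, ofReal_im, zero_sub, abs_neg] at e1 e2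
        rw [abs_of_pos hy₂] at e2
        linarith)
    have n1 := hlog (‖z₁ - z₂‖ / z₁.im) (by positivity)
    have n2 := hlog (‖z₁ - z₂‖ / z₂.im) (by positivity)
    have n3 : 0 ≤ ‖z₁ - z₂‖ / R := by positivity
    have n4 : 0 ≤ ε * (Real.log (1 + ‖z₁ - z₂‖ / z₁.im) + Real.log (1 + ‖z₁ - z₂‖ / z₂.im)) := by positivity
    have e : 48 * (ε * (1 + Real.log (1 + ‖z₁ - z₂‖ / z₁.im) + Real.log (1 + ‖z₁ - z₂‖ / z₂.im)) + ‖z₁ - z₂‖ / R) =
      48 * ε + 48 * (ε * (Real.log (1 + ‖z₁ - z₂‖ / z₁.im) + Real.log (1 + ‖z₁ - z₂‖ / z₂.im)))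
        + 48 * (‖z₁ - z₂‖ / R) := by ring
    rw [e]
    linarith
  · intro hab' z hz hzc
    rw [q3_GG_norm cd a b N z hz]
    have hy : 0 < z.im := hz
    set c : ℝ := (a + b) / 2 with hc
    have hcm : c ∈ Ioo a b := ⟨by rw [hc]; linarith, by rw [hc]; linarith⟩
    have hs : 0 < b - a := by linarith
    -- value at the centre
    have hcen : (GG cd a b N c).re = Real.log (KI cd a b c) := by
      obtain ⟨p1, -, -⟩ := hP3 Hm Hp C cd a b N hab' hN
      obtain ⟨-, k1, k2⟩ := p1 c hcm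
      have hca : c - a = (b - a) / 2 := by rw [hc]; ring
      have hcb : b - c = (b - a) / 2 := by rw [hc]; ring
      rw [hca, hcb, Real.sqrt_mul_self (by linarith)] at k2
      unfold GG
      have r1 : (cd.f c - N) = ((vf cd c : ℝ) : ℂ) * I := by
        apply Complex.ext
        · have := hN c ⟨hcm.1.le, hcm.2.le⟩
          unfold Nf at this
          simp [this]
        · simp [vf]
      have hvpos : 0 < vf cd c := by
        rw [k2]
        positivity
      have r2 : ((Complex.log ((c : ℂ) - a) + Complex.log ((c : ℂ) - b)) / 2).re =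
          (Real.log ‖(c : ℂ) - a‖ + Real.log ‖(c : ℂ) - b‖) / 2 := by
        have : (Complex.log ((c : ℂ) - a) + Complex.log ((c : ℂ) - b)) / 2 =
          (Complex.log ((c : ℂ) - a) + Complex.log ((c : ℂ) - b)) / ((2 : ℝ) : ℂ) := by norm_num
        rw [this, Complex.div_ofReal_re, Complex.add_re, Complex.log_re, Complex.log_re]
      have r3 : ‖(c : ℂ) - a‖ = (b - a) / 2 := by
        rw [← Complex.ofReal_sub, Complex.norm_real, Real.norm_eq_abs, hca, abs_of_pos (by linarith)]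
      have r4 : ‖(c : ℂ) - b‖ = (b - a) / 2 := by
        rw [← Complex.ofReal_sub, Complex.norm_real, Real.norm_eq_abs, abs_sub_comm, hcb, abs_of_pos (by linarith)]
      rw [Complex.sub_re, r2, r3, r4, Complex.log_re, r1, norm_mul, Complex.norm_real, Complex.norm_I, mul_one,
        Real.norm_eq_abs, abs_of_pos hvpos, k2, Real.log_mul (by positivity) k1.ne']
      ring
    rw [← hcen]
    -- approximants
    let zη : ℝ → ℂ := fun η => (c : ℂ) + (η : ℂ) * I
    have hre : ∀ η, (zη η).re = c := fun η => by simp [zη]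
    have him : ∀ η, (zη η).im = η := fun η => by simp [zη]
    have hzc0 : Continuous zη := by fun_prop
    have hineq : ∀ᶠ η in 𝓝[>] (0 : ℝ), |(GG cd a b N z).re - (GG cd a b N (zη η)).re| ≤
        24 * (ε * (Real.log (1 + ‖z - zη η‖ / z.im) + Real.log (1 + ‖z - zη η‖ / ((b - a) / 2)))) +
          2 * (‖z - zη η‖ / R) := by
      have hev : Ioo (0 : ℝ) (R / 4) ∈ 𝓝[>] (0 : ℝ) := Ioo_mem_nhdsGT (by positivity)
      filter_upwards [hev] with η hη
      refine q3_main_diff hA2 hP1 hP2 hHm cd a b N ε R hε hR hab hN hN' hv z (zη η) ((b - a) / 2) (by linarith)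
        hz (by show 0 < (zη η).im; rw [him]; exact hη.1) hzc ?_ ?_
      · have : zη η - ((c : ℝ) : ℂ) = (η : ℂ) * I := by simp [zη]
        rw [← hc, this, norm_mul, Complex.norm_real, Complex.norm_I, mul_one, Real.norm_eq_abs, abs_of_pos hη.1]
        exact hη.2.le
      · intro t ht
        rw [hre]
        have e1 := Complex.abs_re_le_norm ((t : ℂ) - zη η)
        rw [Complex.sub_re, Complex.ofReal_re, hre] at e1
        have e2 : (b - a) / 2 ≤ |t - c| := by
          by_contra hcon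
          push Not at hcon
          rw [abs_lt] at hcon
          apply ht
          constructor
          · rw [hc] at hcon
            linarith [hcon.1]
          · rw [hc] at hcon
            linarith [hcon.2]
        linarith
    have hcU : (c : ℂ) ∈ Ucm {a, b} := by
      refine ⟨by simp, ?_⟩
      intro s hs hcs
      have hcs' : c = s := by exact_mod_cast hcs
      simp only [Finset.mem_insert, Finset.mem_singleton] at hs
      rcases hs with h | h
      · rw [h] at hcs'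
        exact absurd hcs' hcm.1.ne'
      · rw [h] at hcs'
        exact absurd hcs' hcm.2.ne
    have hcont := q3_GG_cont hP2 hHm cd a b N hN hN' (c : ℂ) hcU
    have hz0 : zη 0 = (c : ℂ) := by simp [zη]
    have htend : Tendsto zη (𝓝[>] (0 : ℝ)) (𝓝[Ucm {a, b}] (c : ℂ)) := by
      rw [tendsto_nhdsWithin_iff]
      constructor
      · have := hzc0.tendsto 0
        rw [hz0] at this
        exact this.mono_left nhdsWithin_le_nhds
      · filter_upwards [self_mem_nhdsWithin] with η hη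
        have hη' : (0 : ℝ) < η := hη
        refine ⟨by rw [him]; exact hη'.le, ?_⟩
        intro s _ hs
        have := congrArg Complex.im hs
        rw [him, Complex.ofReal_im] at this
        linarith
    have hG : Tendsto (fun η => (GG cd a b N (zη η)).re) (𝓝[>] (0 : ℝ)) (𝓝 (GG cd a b N c).re) :=
      (Complex.continuous_re.tendsto _).comp (hcont.tendsto.comp htend)
    have hL : Tendsto (fun η => |(GG cd a b N z).re - (GG cd a b N (zη η)).re|) (𝓝[>] (0 : ℝ))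
        (𝓝 |(GG cd a b N z).re - (GG cd a b N c).re|) := (hG.const_sub _).abs
    have hZt : Tendsto (fun η => ‖z - zη η‖) (𝓝[>] (0 : ℝ)) (𝓝 ‖z - (c : ℂ)‖) := by
      have h1 : Continuous fun η => ‖z - zη η‖ := by fun_prop
      have := h1.tendsto 0
      rw [hz0] at this
      exact this.mono_left nhdsWithin_le_nhds
    have hlogt : ∀ w : ℝ, 0 < w → Tendsto (fun η => Real.log (1 + ‖z - zη η‖ / w)) (𝓝[>] (0 : ℝ))
        (𝓝 (Real.log (1 + ‖z - (c : ℂ)‖ / w))) := by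
      intro w hw
      have h1 : (1 + ‖z - (c : ℂ)‖ / w) ≠ 0 := by positivity
      exact (Real.continuousAt_log h1).tendsto.comp ((hZt.div_const w).const_add 1)
    have hRt := ((((hlogt z.im hy).add (hlogt ((b - a) / 2) (by linarith))).const_mul ε).const_mul 24).add
      ((hZt.div_const R).const_mul 2)
    have hfin := le_of_tendsto_of_tendsto hL hRt hineq
    set Z : ℝ := ‖z - (c : ℂ)‖ with hZ
    have hZ0 : 0 ≤ Z := norm_nonneg _
    have hl2 : Real.log (1 + Z / ((b - a) / 2)) ≤ 2 * Real.log (1 + Z / (b - a)) := by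
      have e0 : 0 ≤ Z / (b - a) := by positivity
      have e1 : 1 + Z / ((b - a) / 2) ≤ (1 + Z / (b - a)) ^ 2 := by
        have e2 : Z / ((b - a) / 2) = 2 * (Z / (b - a)) := by field_simp
        rw [e2]
        nlinarith
      have e3 : 0 < 1 + Z / ((b - a) / 2) := by positivity
      have e4 := Real.log_le_log e3 e1
      rw [Real.log_pow] at e4
      push_cast at e4
      exact e4
    have n1 := hlog (Z / z.im) (by positivity)
    have n2 := hlog (Z / (b - a)) (by positivity)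
    have n3 : 0 ≤ Z / R := by positivity
    have n4 : 0 ≤ ε * Real.log (1 + Z / z.im) := by positivity
    have n5 : ε * Real.log (1 + Z / ((b - a) / 2)) ≤ ε * (2 * Real.log (1 + Z / (b - a))) :=
      mul_le_mul_of_nonneg_left hl2 hε.le
    have e : 48 * (ε * (1 + Real.log (1 + Z / z.im) + Real.log (1 + Z / (b - a))) + Z / R) =
      48 * ε + 48 * (ε * Real.log (1 + Z / z.im)) + 24 * (ε * (2 * Real.log (1 + Z / (b - a)))) + 48 * (Z / R) := by
      ring
    rw [e]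
    have hfin' : |(GG cd a b N z).re - (GG cd a b N c).re| ≤
        24 * (ε * (Real.log (1 + Z / z.im) + Real.log (1 + Z / ((b - a) / 2)))) + 2 * (Z / R) := hfin
    have e5 : 24 * (ε * (Real.log (1 + Z / z.im) + Real.log (1 + Z / ((b - a) / 2)))) =
      24 * (ε * Real.log (1 + Z / z.im)) + 24 * (ε * Real.log (1 + Z / ((b - a) / 2))) := by ring
    rw [e5] at hfin'
    linarith

end

end Pool.Agent.Helper48.CV.Q3
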