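import Pool.Agent.Helper36.CV.StmtsE
import Pool.Agent.Helper48.CV.Q3

set_option autoImplicit false

namespace Pool.Agent.Helper48.CV.E2

open Complex Filter Topology MeasureTheory Set Pool.Agent.Helper36.CV Pool.Agent.Helper48.CV.Q3

noncomputable section

/-- boundary data -/
def BE (θ : ℝ → ℝ) (S : Finset ℝ) (c ε R : ℝ) : Prop :=
  ∀ t : ℝ, t ∉ S → 0 ≤ θ t ∧ θ t ≤ Real.pi / 2 ∧ (|t - c| ≤ R → θ t ≤ 3 * ε)

lemma e2_ae (S : Finset ℝ) : ∀ᵐ t : ℝ, t ∉ S := by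
  have h := S.countable_toSet.ae_notMem (volume : Measure ℝ)
  filter_upwards [h] with t ht
  simpa using ht

lemma e2_arg (θ : ℝ → ℝ) (S : Finset ℝ) (c ε R : ℝ) (hA2 : ST_A2) (hε : 0 < ε) (hR : 0 < R)
    (hbd : BE θ S c ε R) (z : ℂ) (hz : z ∈ Uo) (hzc : ‖z - (c : ℂ)‖ ≤ R / 4)
    (hi : Integrable (fun t : ℝ => θ t * (z.im / ((t - z.re) ^ 2 + z.im ^ 2)))) :
    |(1 / Real.pi) * ∫ t : ℝ, θ t * (z.im / ((t - z.re) ^ 2 + z.im ^ 2))| ≤ 3 * ε + 2 * ‖z - (c : ℂ)‖ / R := by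
  have hy : 0 < z.im := hz
  have hpi := Real.pi_pos
  obtain ⟨p1, p2⟩ := q3_poisson hA2 z hz
  obtain ⟨t1, t2⟩ := q3_tl_int hR c
  have h0 : 0 ≤ ∫ t : ℝ, θ t * (z.im / ((t - z.re) ^ 2 + z.im ^ 2)) := by
    apply integral_nonneg_of_ae
    filter_upwards [e2_ae S] with t ht
    have hP : 0 ≤ z.im / ((t - z.re) ^ 2 + z.im ^ 2) := by positivity
    exact mul_nonneg (hbd t ht).1 hP
  have hle : ∫ t : ℝ, θ t * (z.im / ((t - z.re) ^ 2 + z.im ^ 2)) ≤
      ∫ t : ℝ, (3 * ε * (z.im / ((t - z.re) ^ 2 + z.im ^ 2)) +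
        Real.pi / 2 * (16 / 9 * z.im) * tl c R t) := by
    refine integral_mono_ae hi ((p1.const_mul _).add (t1.const_mul _)) ?_
    filter_upwards [e2_ae S] with t ht
    show θ t * (z.im / ((t - z.re) ^ 2 + z.im ^ 2)) ≤ 3 * ε * (z.im / ((t - z.re) ^ 2 + z.im ^ 2)) +
        Real.pi / 2 * (16 / 9 * z.im) * tl c R t
    have hP : 0 ≤ z.im / ((t - z.re) ^ 2 + z.im ^ 2) := by positivity
    have htl : 0 ≤ tl c R t := by
      unfold tl
      split_ifs
      · positivity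
      · exact le_refl 0
    have hs : 0 ≤ Real.pi / 2 * (16 / 9 * z.im) * tl c R t := by positivity
    obtain ⟨b1, b2, b3⟩ := hbd t ht
    by_cases hw : |t - c| ≤ R
    · have h4 := mul_le_mul_of_nonneg_right (b3 hw) hP
      linarith
    · push Not at hw
      have h6 := q3_pk_tail hR hz hzc hw
      have h7 : tl c R t = 1 / (t - c) ^ 2 := by
        unfold tl
        rw [if_pos hw]
      rw [h7]
      have h8 : θ t * (z.im / ((t - z.re) ^ 2 + z.im ^ 2)) ≤
          Real.pi / 2 * (16 / 9 * z.im * (1 / (t - c) ^ 2)) := by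
        apply mul_le_mul b2 h6 hP (by positivity)
      have h3 : 0 ≤ 3 * ε * (z.im / ((t - z.re) ^ 2 + z.im ^ 2)) := by positivity
      linarith
  rw [integral_add (p1.const_mul _) (t1.const_mul _), integral_const_mul, integral_const_mul, p2, t2] at hle
  have h9 : z.im ≤ ‖z - (c : ℂ)‖ := by
    have := q3_im_dist (z := z) (c := c)
    rwa [abs_of_pos hy] at this
  rw [abs_of_nonneg (by positivity)]
  calc (1 / Real.pi) * ∫ t : ℝ, θ t * (z.im / ((t - z.re) ^ 2 + z.im ^ 2))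
      ≤ (1 / Real.pi) * (3 * ε * Real.pi + Real.pi / 2 * (16 / 9 * z.im) * (2 / R)) := by
        apply mul_le_mul_of_nonneg_left hle (by positivity)
    _ = 3 * ε + 16 / 9 * (z.im / R) := by
        field_simp
    _ ≤ 3 * ε + 2 * ‖z - (c : ℂ)‖ / R := by
        have h10 : z.im / R ≤ ‖z - (c : ℂ)‖ / R := by gcongr
        have h11 : 0 ≤ z.im / R := by positivity
        have h12 : 2 * ‖z - (c : ℂ)‖ / R = 2 * (‖z - (c : ℂ)‖ / R) := by ring
        rw [h12]
        linarith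

lemma e2_diff (θ : ℝ → ℝ) (S : Finset ℝ) (c ε R : ℝ) (hε : 0 < ε) (hR : 0 < R)
    (hbd : BE θ S c ε R) (z₁ z₂ : ℂ) (hz₁ : z₁ ∈ Uo) (hz₂ : z₂ ∈ Uo)
    (hc₁ : ‖z₁ - (c : ℂ)‖ ≤ R / 4) (hc₂ : ‖z₂ - (c : ℂ)‖ ≤ R / 4) :
    ‖(1 / Real.pi : ℝ) * ∫ t : ℝ, ((θ t : ℝ) : ℂ) * (1 / ((t : ℂ) - z₁) - 1 / ((t : ℂ) - z₂))‖ ≤
      24 * (ε * (Real.log (1 + ‖z₁ - z₂‖ / z₁.im) + Real.log (1 + ‖z₁ - z₂‖ / z₂.im))) + 2 * (‖z₁ - z₂‖ / R) := by
  have hy₁ : 0 < z₁.im := hz₁
  have hy₂ : 0 < z₂.im := hz₂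
  have hpi := Real.pi_pos
  set Z : ℝ := ‖z₁ - z₂‖ with hZdef
  have hZ : 0 ≤ Z := norm_nonneg _
  obtain ⟨i1, e1⟩ := q3_h_int hy₁ hZ z₁.re
  obtain ⟨i2, e2⟩ := q3_h_int hy₂ hZ z₂.re
  obtain ⟨i3, e3⟩ := q3_tl_int hR c
  have hle : ‖∫ t : ℝ, ((θ t : ℝ) : ℂ) * (1 / ((t : ℂ) - z₁) - 1 / ((t : ℂ) - z₂))‖ ≤
      ∫ t : ℝ, (36 * ε * (Z / ((|t - z₁.re| + z₁.im) * (|t - z₁.re| + z₁.im + Z)) +
        Z / ((|t - z₂.re| + z₂.im) * (|t - z₂.re| + z₂.im + Z))) + 8 / 9 * Real.pi * Z * tl c R t) := by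
    refine norm_integral_le_of_norm_le (((i1.add i2).const_mul _).add (i3.const_mul _)) ?_
    filter_upwards [e2_ae S] with t htS
    show ‖((θ t : ℝ) : ℂ) * (1 / ((t : ℂ) - z₁) - 1 / ((t : ℂ) - z₂))‖ ≤
      36 * ε * (Z / ((|t - z₁.re| + z₁.im) * (|t - z₁.re| + z₁.im + Z)) +
        Z / ((|t - z₂.re| + z₂.im) * (|t - z₂.re| + z₂.im + Z))) + 8 / 9 * Real.pi * Z * tl c R t
    have ht1 : (t : ℂ) - z₁ ≠ 0 := by
      intro h
      have := congrArg Complex.im h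
      simp at this
      linarith
    have ht2 : (t : ℂ) - z₂ ≠ 0 := by
      intro h
      have := congrArg Complex.im h
      simp at this
      linarith
    have hker : ‖((θ t : ℝ) : ℂ) * (1 / ((t : ℂ) - z₁) - 1 / ((t : ℂ) - z₂))‖ =
        |θ t| * (Z / (‖(t : ℂ) - z₁‖ * ‖(t : ℂ) - z₂‖)) := by
      have h1 : 1 / ((t : ℂ) - z₁) - 1 / ((t : ℂ) - z₂) = (z₁ - z₂) / (((t : ℂ) - z₁) * ((t : ℂ) - z₂)) := by
        field_simp
        ring
      rw [h1, norm_mul, norm_div, norm_mul, Complex.norm_real, Real.norm_eq_abs]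
    rw [hker]
    have hn1 : 0 ≤ Z / ((|t - z₁.re| + z₁.im) * (|t - z₁.re| + z₁.im + Z)) := q3_h_nonneg hy₁ hZ _
    have hn2 : 0 ≤ Z / ((|t - z₂.re| + z₂.im) * (|t - z₂.re| + z₂.im + Z)) := q3_h_nonneg hy₂ hZ _
    have htl : 0 ≤ tl c R t := by
      unfold tl
      split_ifs
      · positivity
      · exact le_refl 0
    have hn3 : 0 ≤ 8 / 9 * Real.pi * Z * tl c R t := by positivity
    obtain ⟨b1, b2, b3⟩ := hbd t htS
    rw [abs_of_nonneg b1]
    have hre1 : |t - z₁.re| ≤ ‖(t : ℂ) - z₁‖ := by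
      have := Complex.abs_re_le_norm ((t : ℂ) - z₁)
      simpa using this
    have hre2 : |t - z₂.re| ≤ ‖(t : ℂ) - z₂‖ := by
      have := Complex.abs_re_le_norm ((t : ℂ) - z₂)
      simpa using this
    have him1 : z₁.im ≤ ‖(t : ℂ) - z₁‖ := by
      have := Complex.abs_im_le_norm ((t : ℂ) - z₁)
      have h2 : |((t : ℂ) - z₁).im| = z₁.im := by
        simp [abs_of_pos hy₁]
      rwa [h2] at this
    have him2 : z₂.im ≤ ‖(t : ℂ) - z₂‖ := by
      have := Complex.abs_im_le_norm ((t : ℂ) - z₂)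
      have h2 : |((t : ℂ) - z₂).im| = z₂.im := by
        simp [abs_of_pos hy₂]
      rwa [h2] at this
    have hA : (|t - z₁.re| + z₁.im) / 2 ≤ ‖(t : ℂ) - z₁‖ := by linarith
    have hB : (|t - z₂.re| + z₂.im) / 2 ≤ ‖(t : ℂ) - z₂‖ := by linarith
    have hZAB : Z ≤ ‖(t : ℂ) - z₁‖ + ‖(t : ℂ) - z₂‖ := by
      have h1 : z₁ - z₂ = ((t : ℂ) - z₂) - ((t : ℂ) - z₁) := by ring
      rw [hZdef, h1]
      have := norm_sub_le ((t : ℂ) - z₂) ((t : ℂ) - z₁)
      linarith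
    have hA0 : 0 < ‖(t : ℂ) - z₁‖ := norm_pos_iff.2 ht1
    have hB0 : 0 < ‖(t : ℂ) - z₂‖ := norm_pos_iff.2 ht2
    by_cases hwin : |t - c| ≤ R
    · have hk := q3_kernel (A := ‖(t : ℂ) - z₁‖) (B := ‖(t : ℂ) - z₂‖) (u := |t - z₁.re| + z₁.im)
        (w := |t - z₂.re| + z₂.im) (Z := Z) (by positivity) (by positivity) hZ hA hB hZAB
      have h1 := mul_le_mul (b3 hwin) hk (by positivity) (by positivity)
      linarith
    · push Not at hwin
      have h7 : tl c R t = 1 / (t - c) ^ 2 := by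
        unfold tl
        rw [if_pos hwin]
      have hd1 : 3 / 4 * |t - c| ≤ ‖(t : ℂ) - z₁‖ := by
        have h1 : |z₁.re - c| ≤ R / 4 := le_trans q3_re_dist hc₁
        have h2 : |t - c| ≤ |t - z₁.re| + |z₁.re - c| := abs_sub_le _ _ _
        linarith
      have hd2 : 3 / 4 * |t - c| ≤ ‖(t : ℂ) - z₂‖ := by
        have h1 : |z₂.re - c| ≤ R / 4 := le_trans q3_re_dist hc₂
        have h2 : |t - c| ≤ |t - z₂.re| + |z₂.re - c| := abs_sub_le _ _ _
        linarith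
      have hpos : 0 < |t - c| := by linarith
      have h5 : 0 < (t - c) ^ 2 := by
        have := pow_pos hpos 2
        rwa [sq_abs] at this
      have hprod : 9 / 16 * (t - c) ^ 2 ≤ ‖(t : ℂ) - z₁‖ * ‖(t : ℂ) - z₂‖ := by
        have := mul_le_mul hd1 hd2 (by positivity) hA0.le
        have e : 3 / 4 * |t - c| * (3 / 4 * |t - c|) = 9 / 16 * |t - c| ^ 2 := by ring
        rw [e, sq_abs] at this
        exact this
      have h8 : Z / (‖(t : ℂ) - z₁‖ * ‖(t : ℂ) - z₂‖) ≤ 16 / 9 * Z * (1 / (t - c) ^ 2) := by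
        rw [mul_one_div, div_le_div_iff₀ (by positivity) h5]
        nlinarith [mul_le_mul_of_nonneg_left hprod hZ]
      have h9 := mul_le_mul b2 h8 (by positivity) (by positivity)
      rw [h7]
      have h10 : 0 ≤ 36 * ε * (Z / ((|t - z₁.re| + z₁.im) * (|t - z₁.re| + z₁.im + Z)) +
        Z / ((|t - z₂.re| + z₂.im) * (|t - z₂.re| + z₂.im + Z))) := by positivity
      linarith
  have i12 : Integrable (fun t : ℝ => Z / ((|t - z₁.re| + z₁.im) * (|t - z₁.re| + z₁.im + Z)) +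
        Z / ((|t - z₂.re| + z₂.im) * (|t - z₂.re| + z₂.im + Z))) := i1.add i2
  rw [integral_add (i12.const_mul _) (i3.const_mul _), integral_const_mul, integral_const_mul,
    e3] at hle
  have hadd : ∫ t : ℝ, (Z / ((|t - z₁.re| + z₁.im) * (|t - z₁.re| + z₁.im + Z)) +
        Z / ((|t - z₂.re| + z₂.im) * (|t - z₂.re| + z₂.im + Z))) =
        2 * Real.log (1 + Z / z₁.im) + 2 * Real.log (1 + Z / z₂.im) := by
    rw [integral_add i1 i2, e1, e2]
  rw [hadd] at hle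
  have hl1 : 0 ≤ Real.log (1 + Z / z₁.im) := Real.log_nonneg (by
    have : 0 ≤ Z / z₁.im := by positivity
    linarith)
  have hl2 : 0 ≤ Real.log (1 + Z / z₂.im) := Real.log_nonneg (by
    have : 0 ≤ Z / z₂.im := by positivity
    linarith)
  rw [norm_mul, Complex.norm_real, Real.norm_eq_abs, abs_of_pos (by positivity : 0 < 1 / Real.pi)]
  have hpi3 := Real.pi_gt_three
  have hinv : 1 / Real.pi ≤ 1 / 3 := by
    apply one_div_le_one_div_of_le (by norm_num) hpi3.le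
  calc (1 / Real.pi) * ‖∫ t : ℝ, ((θ t : ℝ) : ℂ) * (1 / ((t : ℂ) - z₁) - 1 / ((t : ℂ) - z₂))‖
      ≤ (1 / Real.pi) * (36 * ε * (2 * Real.log (1 + Z / z₁.im) + 2 * Real.log (1 + Z / z₂.im)) +
        8 / 9 * Real.pi * Z * (2 / R)) := by
        apply mul_le_mul_of_nonneg_left hle (by positivity)
    _ = (1 / Real.pi) * (72 * (ε * (Real.log (1 + Z / z₁.im) + Real.log (1 + Z / z₂.im)))) + 16 / 9 * (Z / R) := by
        field_simp
        ring
    _ ≤ (1 / 3) * (72 * (ε * (Real.log (1 + Z / z₁.im) + Real.log (1 + Z / z₂.im)))) + 16 / 9 * (Z / R) := by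
        gcongr
    _ ≤ 24 * (ε * (Real.log (1 + Z / z₁.im) + Real.log (1 + Z / z₂.im))) + 2 * (Z / R) := by
        have : 0 ≤ Z / R := by positivity
        linarith

/-! ### the function G -/

variable {Hm Hp : ℝ} {C : Set ℝ}

def GE (cd : CD Hm Hp C) (c N : ℝ) (z : ℂ) : ℂ :=
  Complex.log (cd.f z - N) - Complex.log (z - c) / 2

/-- exceptional points -/
def Exc (cd : CD Hm Hp C) (c N : ℝ) (S : Finset ℝ) : Prop :=
  c ∈ S ∧ ∀ t : ℝ, Nf cd t = N → vf cd t = 0 → t ∈ S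

lemma e2_S (hP2 : ST_P2) (hE1 : ST_E1) (hHm : 0 < Hm) (cd : CD Hm Hp C) (e : Edge cd) :
    ∃ S : Finset ℝ, Exc cd e.c e.N S := by
  obtain ⟨-, -, -, -, -, -, -, -, -, -, -, hP⟩ := hP2 Hm Hp C cd hHm
  obtain ⟨-, -, hgt, -, -⟩ := hE1 Hm Hp C cd hHm
  by_cases h : ∃ a, a < e.c ∧ Nf cd a = e.N ∧ vf cd a = 0
  · obtain ⟨a, ha, haN, hav⟩ := h
    refine ⟨{e.c, a}, by simp, ?_⟩
    intro t htN htv
    rcases lt_trichotomy t e.c with h1 | h1 | h1
    · rcases lt_trichotomy t a with h2 | h2 | h2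
      · exfalso
        have h3 := hP t e.c h1 (fun u hu => by
          rw [htN]
          apply le_antisymm
          · exact cd.re_mono u e.c hu.2
          · rw [← htN]
            exact cd.re_mono t u hu.1) a ⟨h2, ha⟩
        linarith
      · simp [h2]
      · exfalso
        have h3 := hP a e.c ha (fun u hu => by
          rw [haN]
          apply le_antisymm
          · exact cd.re_mono u e.c hu.2
          · rw [← haN]
            exact cd.re_mono a u hu.1) t ⟨h2, h1⟩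
        linarith
    · simp [h1]
    · exfalso
      have := hgt e t h1
      linarith
  · refine ⟨{e.c}, by simp, ?_⟩
    intro t htN htv
    rcases lt_trichotomy t e.c with h1 | h1 | h1
    · exact absurd ⟨t, h1, htN, htv⟩ h
    · simp [h1]
    · exfalso
      have := hgt e t h1
      linarith

lemma e2_mem_f (cd : CD Hm Hp C) (c N : ℝ) (S : Finset ℝ) (hS : Exc cd c N S)
    (z : ℂ) (hz : z ∈ Ucm S) : cd.f z - N ∈ {w : ℂ | 0 ≤ w.im ∧ w ≠ 0} := by
  obtain ⟨h0, h1⟩ := hz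
  rcases lt_or_eq_of_le h0 with h | h
  · have h2 := cd.im_pos z h
    refine ⟨by simpa using h2.le, fun h3 => ?_⟩
    have := congrArg Complex.im h3
    simp at this
    linarith
  · have hzr := q3_real_of_im h.symm
    set t := z.re with ht
    rw [hzr]
    have h2 := cd.im_nonneg t
    refine ⟨by simpa using h2, fun h3 => ?_⟩
    have h4 : Nf cd t = N := by
      have := congrArg Complex.re h3
      simp at this
      unfold Nf
      linarith
    have h5 : vf cd t = 0 := by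
      have := congrArg Complex.im h3
      unfold vf
      simpa using this
    exact h1 t (hS.2 t h4 h5) hzr

lemma e2_cont (cd : CD Hm Hp C) (c N : ℝ) (S : Finset ℝ) (hS : Exc cd c N S) :
    ContinuousOn (GE cd c N) (Ucm S) := by
  have h1 : ContinuousOn (fun z : ℂ => Complex.log (cd.f z - N)) (Ucm S) := by
    refine q3_log_cont.comp ((cd.cont.mono (fun z hz => hz.1)).sub continuousOn_const) ?_
    intro z hz
    exact e2_mem_f cd c N S hS z hz
  have h2 : ContinuousOn (fun z : ℂ => Complex.log (z - c)) (Ucm S) := by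
    refine q3_log_cont.comp (continuousOn_id.sub continuousOn_const) ?_
    intro z hz
    refine ⟨by simpa using hz.1, ?_⟩
    exact sub_ne_zero.2 (hz.2 c hS.1)
  exact h1.sub (h2.div_const 2)

lemma e2_Gdiff (cd : CD Hm Hp C) (c N : ℝ) : DifferentiableOn ℂ (GE cd c N) Uo := by
  have h0 : ∀ w : ℂ, 0 < w.im → w ∈ slitPlane := fun w hw => by
    rw [mem_slitPlane_iff]
    exact Or.inr hw.ne'
  have h1 : DifferentiableOn ℂ (fun z : ℂ => Complex.log (cd.f z - N)) Uo := by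
    refine DifferentiableOn.clog (cd.ana.sub_const _) ?_
    intro z hz
    exact h0 _ (by simpa using cd.im_pos z hz)
  have h2 : ∀ s : ℝ, DifferentiableOn ℂ (fun z : ℂ => Complex.log (z - s)) Uo := by
    intro s
    refine DifferentiableOn.clog (differentiableOn_id.sub_const _) ?_
    intro z hz
    have hz' : 0 < z.im := hz
    exact h0 _ (by simpa using hz')
  exact h1.sub ((h2 c).div_const 2)

lemma e2_im (cd : CD Hm Hp C) (c N : ℝ) (z : ℂ) :
    (GE cd c N z).im = (cd.f z - N).arg - (z - c).arg / 2 := by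
  unfold GE
  have h2 : (Complex.log (z - c) / 2).im = (z - c).arg / 2 := by
    have : Complex.log (z - c) / 2 = Complex.log (z - c) / ((2 : ℝ) : ℂ) := by norm_num
    rw [this, Complex.div_ofReal_im, Complex.log_im]
  rw [Complex.sub_im, h2, Complex.log_im]

lemma e2_im_bd (cd : CD Hm Hp C) (c N : ℝ) (z : ℂ) (hz : z ∈ Uo) :
    -Real.pi < (GE cd c N z).im ∧ (GE cd c N z).im < Real.pi := by
  rw [e2_im]
  have h1 := q3_arg_pos (w := cd.f z - N) (by simpa using cd.im_pos z hz)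
  have hz' : 0 < z.im := hz
  have h2 := q3_arg_pos (w := z - c) (by simpa using hz')
  constructor <;> linarith [h1.1, h1.2, h2.1, h2.2]

lemma e2_exp (cd : CD Hm Hp C) (c N : ℝ) (z : ℂ) (hz : z ∈ Uo) :
    Complex.exp (GE cd c N z) = (cd.f z - N) / (z - c) ^ (1 / 2 : ℂ) := by
  have hz' : 0 < z.im := hz
  have h1 : cd.f z - N ≠ 0 := by
    intro h
    have := congrArg Complex.im h
    have h2 := cd.im_pos z hz
    simp at this
    linarith
  have h2 : z - c ≠ 0 := by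
    intro h
    have := congrArg Complex.im h
    simp at this
    linarith
  unfold GE
  rw [Complex.exp_sub, Complex.exp_log h1]
  congr 1
  rw [Complex.cpow_def_of_ne_zero h2]
  congr 1
  ring

lemma e2_bd (hE1 : ST_E1) (hHm : 0 < Hm) (cd : CD Hm Hp C) (e : Edge cd) (S : Finset ℝ)
    (hS : Exc cd e.c e.N S) (ε R : ℝ) (hε : 0 < ε) (hRδ : R ≤ e.δ)
    (hv : ∀ t : ℝ, e.c < t → t ≤ e.c + R → vf cd t ≤ 3 * ε * (Nf cd t - e.N)) :
    BE (fun t : ℝ => (GE cd e.c e.N t).im) S e.c ε R := by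
  obtain ⟨-, -, hgt, -, -⟩ := hE1 Hm Hp C cd hHm
  have hpi := Real.pi_pos
  intro t htS
  show 0 ≤ (GE cd e.c e.N t).im ∧ (GE cd e.c e.N t).im ≤ Real.pi / 2 ∧
      (|t - e.c| ≤ R → (GE cd e.c e.N t).im ≤ 3 * ε)
  have htc : t ≠ e.c := fun h => htS (h ▸ hS.1)
  have him : 0 ≤ (cd.f t - e.N).im := by
    simpa using cd.im_nonneg t
  have h6 : (cd.f t - e.N).im = vf cd t := by simp [vf]
  have h7 : (cd.f t - e.N).re = Nf cd t - e.N := by simp [Nf]
  rw [e2_im]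
  rcases lt_or_gt_of_ne htc with h | h
  · rw [q3_arg_neg_real h]
    have h1 : Nf cd t ≤ e.N := cd.re_mono t e.c h.le
    rcases lt_or_eq_of_le h1 with h2 | h2
    · have hre : (cd.f t - e.N).re < 0 := by
        rw [h7]
        linarith
      have h4 := q3_arg_big (e := (cd.f t - e.N).im / (-(cd.f t - e.N).re)) hre him (by
        rw [div_mul_cancel₀ _ (by linarith)])
      refine ⟨by linarith [h4.1], by linarith [h4.2.1], fun hw => ?_⟩
      exfalso
      have h5 := e.flat t ⟨by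
        rw [abs_le] at hw
        linarith [hw.1], h.le⟩
      have h8 : e.N = Nf cd e.c := rfl
      linarith
    · have hv0 : vf cd t ≠ 0 := fun h3 => htS (hS.2 t h2 h3)
      have h3 : (cd.f t - e.N).arg = Real.pi / 2 := by
        rw [Complex.arg_eq_pi_div_two_iff]
        refine ⟨by rw [h7]; linarith, ?_⟩
        rw [h6]
        exact lt_of_le_of_ne (cd.im_nonneg t) (Ne.symm hv0)
      rw [h3]
      refine ⟨by linarith, by linarith, fun _ => by linarith⟩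
  · rw [q3_arg_pos_real h]
    have hre : 0 < (cd.f t - e.N).re := by
      rw [h7]
      have := hgt e t h
      linarith
    have h4 := q3_arg_small (e := (cd.f t - e.N).im / (cd.f t - e.N).re) hre him (by
      rw [div_mul_cancel₀ _ hre.ne'])
    refine ⟨by linarith [h4.1], by linarith [h4.2.1], fun hw => ?_⟩
    have h5 := hv t h (by
      rw [abs_le] at hw
      linarith [hw.2])
    have h8 := q3_arg_small (e := 3 * ε) hre him (by
      rw [h6, h7]
      exact h5)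
    linarith [h8.2.2]

lemma e2_growth (hP1 : ST_P1) (cd : CD Hm Hp C) (c N : ℝ) : ∃ A : ℝ,
    (∀ z ∈ Uo, ‖GE cd c N z‖ ≤ A * (1 + |Real.log z.im| + Real.log (1 + ‖z‖))) ∧
    (∀ z ∈ Uo, |(GE cd c N z).im| ≤ A * (1 + Real.log (1 + ‖z‖))) := by
  obtain ⟨A, hA1, hA2⟩ := q3_growth hP1 cd c c N
  have hpi := Real.pi_pos
  set B : ℝ := |A| + Real.log (1 + |c|) + Real.pi + 1 with hB
  have hlc : 0 ≤ Real.log (1 + |c|) := Real.log_nonneg (by linarith [abs_nonneg c])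
  have hA0 := abs_nonneg A
  have hAle := le_abs_self A
  have hAeq : ∀ z, GE cd c N z = GG cd c c N z + Complex.log (z - c) / 2 := by
    intro z
    unfold GG GE
    ring
  refine ⟨B, ?_, ?_⟩
  · intro z hz
    have hL : 0 ≤ Real.log (1 + ‖z‖) := Real.log_nonneg (by linarith [norm_nonneg z])
    have hl := abs_nonneg (Real.log z.im)
    have h1 := q3_log_shift c z hz
    have h2 := hA1 z hz
    rw [hAeq]
    have h3 := norm_add_le (GG cd c c N z) (Complex.log (z - c) / 2)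
    have h4 : ‖Complex.log (z - c) / 2‖ = ‖Complex.log (z - c)‖ / 2 := by
      rw [norm_div]
      simp
    rw [h4] at h3
    have h5 : A * (1 + |Real.log z.im| + Real.log (1 + ‖z‖)) ≤ |A| * (1 + |Real.log z.im| + Real.log (1 + ‖z‖)) :=
      mul_le_mul_of_nonneg_right hAle (by linarith)
    have h6 : B * (1 + |Real.log z.im| + Real.log (1 + ‖z‖)) =
        |A| * (1 + |Real.log z.im| + Real.log (1 + ‖z‖)) +
        (Real.log (1 + |c|) + Real.pi + 1) * (1 + |Real.log z.im| + Real.log (1 + ‖z‖)) := by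
      rw [hB]
      ring
    rw [h6]
    have h7 : (Real.log (1 + |c|) + Real.pi + 1) * (1 + |Real.log z.im| + Real.log (1 + ‖z‖)) =
      (Real.log (1 + |c|) + Real.pi) * (1 + |Real.log z.im| + Real.log (1 + ‖z‖)) +
        (1 + |Real.log z.im| + Real.log (1 + ‖z‖)) := by ring
    have h8 : (Real.log (1 + |c|) + Real.pi) * 1 ≤
        (Real.log (1 + |c|) + Real.pi) * (1 + |Real.log z.im| + Real.log (1 + ‖z‖)) :=
      mul_le_mul_of_nonneg_left (by linarith) (by linarith)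
    rw [h7]
    linarith
  · intro z hz
    have hL : 0 ≤ Real.log (1 + ‖z‖) := Real.log_nonneg (by linarith [norm_nonneg z])
    have h := e2_im_bd cd c N z hz
    have h1 : |(GE cd c N z).im| ≤ Real.pi := abs_le.2 ⟨h.1.le, h.2.le⟩
    have h2 : 0 ≤ B * Real.log (1 + ‖z‖) := by
      have : 0 ≤ B := by linarith
      positivity
    have h3 : B * (1 + Real.log (1 + ‖z‖)) = B + B * Real.log (1 + ‖z‖) := by ring
    rw [h3]
    linarith

theorem st_E2 (hA2 : ST_A2) (hP1 : ST_P1) (hP2 : ST_P2) (hE1 : ST_E1) : ST_E2 := by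
  refine ⟨24, by norm_num, ?_⟩
  intro ε Hm Hp C cd hHm hε hε1 e R hR hRδ hv
  obtain ⟨S, hS⟩ := e2_S hP2 hE1 hHm cd e
  obtain ⟨A, g1, g2⟩ := e2_growth hP1 cd e.c e.N
  obtain ⟨h1, h2⟩ := hA2 (GE cd e.c e.N) S A (e2_cont cd e.c e.N S hS) (e2_Gdiff cd e.c e.N) g1 g2
  have hbd := e2_bd hE1 hHm cd e S hS ε R hε hRδ hv
  have hexp : ∀ z ∈ Uo, Complex.exp (GE cd e.c e.N z) = e.g z := fun z hz => e2_exp cd e.c e.N z hz
  refine ⟨?_, ?_⟩
  · intro z hz hzc
    obtain ⟨h1a, h1b⟩ := h1 z hz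
    have harg : (e.g z).arg = (GE cd e.c e.N z).im := by
      rw [← hexp z hz, Complex.arg_exp]
      have h := e2_im_bd cd e.c e.N z hz
      exact (toIocMod_eq_self Real.two_pi_pos).2 ⟨h.1, by linarith [h.2]⟩
    rw [harg, h1b]
    exact e2_arg (fun t : ℝ => (GE cd e.c e.N t).im) S e.c ε R hA2 hε hR hbd z hz hzc h1a
  · intro z₁ hz₁ z₂ hz₂ hc₁ hc₂
    have hy₁ : 0 < z₁.im := hz₁
    have hy₂ : 0 < z₂.im := hz₂
    rw [← hexp z₁ hz₁, ← hexp z₂ hz₂, Complex.norm_exp, Complex.norm_exp, Real.log_exp, Real.log_exp]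
    have h3 := (h2 z₁ hz₁ z₂ hz₂).2
    have h4 := e2_diff (fun t : ℝ => (GE cd e.c e.N t).im) S e.c ε R hε hR hbd z₁ z₂ hz₁ hz₂ hc₁ hc₂
    have h5 : |(GE cd e.c e.N z₁).re - (GE cd e.c e.N z₂).re| ≤
        24 * (ε * (Real.log (1 + ‖z₁ - z₂‖ / z₁.im) + Real.log (1 + ‖z₁ - z₂‖ / z₂.im))) + 2 * (‖z₁ - z₂‖ / R) := by
      rw [← Complex.sub_re]
      refine le_trans (Complex.abs_re_le_norm _) ?_
      rw [h3]
      exact h4
    refine le_trans h5 ?_
    have n3 : 0 ≤ ‖z₁ - z₂‖ / R := by positivity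
    have e : 24 * (ε * (1 + Real.log (1 + ‖z₁ - z₂‖ / z₁.im) + Real.log (1 + ‖z₁ - z₂‖ / z₂.im)) + ‖z₁ - z₂‖ / R) =
      24 * ε + 24 * (ε * (Real.log (1 + ‖z₁ - z₂‖ / z₁.im) + Real.log (1 + ‖z₁ - z₂‖ / z₂.im)))
        + 24 * (‖z₁ - z₂‖ / R) := by ring
    rw [e]
    linarith

end

end Pool.Agent.Helper48.CV.E2
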