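import Pool.Agent.Helper36.CV.StmtsQ

set_option autoImplicit false

namespace Pool.Agent.Helper48.CV.Q9

open Complex Filter Topology MeasureTheory Set Pool.Agent.Helper36.CV

noncomputable section

variable {Hm Hp : ℝ} {C : Set ℝ} {cd : CD Hm Hp C}

lemma q9_absq (V : Gap cd) (t : ℝ) : |V.q t| = Real.sqrt ((t - V.a) * (t - V.b)) := by
  unfold Gap.q qr
  split_ifs
  · exact abs_of_nonneg (Real.sqrt_nonneg _)
  · rw [abs_neg]
    exact abs_of_nonneg (Real.sqrt_nonneg _)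

lemma q9_vcont (cd : CD Hm Hp C) : Continuous (vf cd) := by
  have h : Continuous fun t : ℝ => cd.f t :=
    cd.cont.comp_continuous Complex.continuous_ofReal (fun t => by simp)
  exact Complex.continuous_im.comp h

/-- the weight v/|q| is integrable on compact sets away from the gap -/
lemma q9_intOn (V : Gap cd) (l r : ℝ) (h : ∀ t ∈ Icc l r, 0 < (t - V.a) * (t - V.b)) :
    IntegrableOn (fun t => vf cd t / |V.q t|) (Icc l r) := by
  refine ContinuousOn.integrableOn_compact isCompact_Icc ?_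
  refine (q9_vcont cd).continuousOn.div ?_ ?_
  · have : (fun t => |V.q t|) = fun t => Real.sqrt ((t - V.a) * (t - V.b)) := by
      funext t
      exact q9_absq V t
    rw [this]
    exact (Continuous.continuousOn (by fun_prop))
  · intro t ht
    rw [q9_absq]
    exact (Real.sqrt_pos.2 (h t ht)).ne'

/-- shell to weighted lintegral -/
lemma q9_shell (V : Gap cd) (x : ℝ) (k : ℕ) (E : Set ℝ) (hE : MeasurableSet E) (B w : ℝ) (hw : 0 < w)
    (hi : IntegrableOn (fun t => vf cd t / |V.q t|) E) (hB : ∫ t in E, vf cd t / |V.q t| ≤ B)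
    (hd : ∀ t ∈ E, w ≤ |t - x|) :
    ∫⁻ t in E, ENNReal.ofReal (vf cd t / (|V.q t| * |t - x| ^ k)) ≤ ENNReal.ofReal (B / w ^ k) := by
  have h0 : ∀ t, 0 ≤ vf cd t / |V.q t| := fun t => div_nonneg (cd.im_nonneg t) (abs_nonneg _)
  have h1 : ∫⁻ t in E, ENNReal.ofReal (vf cd t / (|V.q t| * |t - x| ^ k)) ≤
      ∫⁻ t in E, ENNReal.ofReal ((vf cd t / |V.q t|) / w ^ k) := by
    refine setLIntegral_mono' hE ?_
    intro t ht
    apply ENNReal.ofReal_le_ofReal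
    rw [← div_div]
    apply div_le_div_of_nonneg_left (h0 t) (by positivity)
    exact pow_le_pow_left₀ hw.le (hd t ht) k
  refine le_trans h1 ?_
  rw [← ofReal_integral_eq_lintegral_ofReal (hi.div_const _)
    (Filter.Eventually.of_forall (fun t => div_nonneg (h0 t) (by positivity)))]
  apply ENNReal.ofReal_le_ofReal
  rw [integral_div]
  gcongr

/-- amplitude comparison -/
lemma q9_amp (g : ℂ → ℂ) (R K ε e : ℝ) (hR : 0 < R) (hK : 0 ≤ K) (he : K * ε ≤ e) (h1 : 0 ≤ e)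
    (z₁ z₂ : ℂ) (S : ℝ) (hz₁ : 0 < z₁.im) (hz₂ : 0 < z₂.im) (hg₁ : g z₁ ≠ 0) (hg₂ : g z₂ ≠ 0)
    (H : |Real.log ‖g z₁‖ - Real.log ‖g z₂‖| ≤
      K * (ε * (1 + Real.log (1 + ‖z₁ - z₂‖ / z₁.im) + Real.log (1 + ‖z₁ - z₂‖ / z₂.im)) + ‖z₁ - z₂‖ / R))
    (hS : ‖z₁ - z₂‖ ≤ S) (hSR : S ≤ R) :
    ‖g z₁‖ ≤ ‖g z₂‖ * Real.exp (e + K) * ((1 + S / z₁.im) * (1 + S / z₂.im)) ^ e := by
  set Z : ℝ := ‖z₁ - z₂‖ with hZ
  have hZ0 : 0 ≤ Z := norm_nonneg _
  have hS0 : 0 ≤ S := le_trans hZ0 hS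
  have p1 : 0 < ‖g z₁‖ := norm_pos_iff.2 hg₁
  have p2 : 0 < ‖g z₂‖ := norm_pos_iff.2 hg₂
  have l1 : Real.log (1 + Z / z₁.im) ≤ Real.log (1 + S / z₁.im) := by
    apply Real.log_le_log (by positivity)
    gcongr
  have l2 : Real.log (1 + Z / z₂.im) ≤ Real.log (1 + S / z₂.im) := by
    apply Real.log_le_log (by positivity)
    gcongr
  have n1 : 0 ≤ Real.log (1 + Z / z₁.im) := Real.log_nonneg (by
    have : 0 ≤ Z / z₁.im := by positivity
    linarith)
  have n2 : 0 ≤ Real.log (1 + Z / z₂.im) := Real.log_nonneg (by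
    have : 0 ≤ Z / z₂.im := by positivity
    linarith)
  have hZR : Z / R ≤ 1 := by
    rw [div_le_one hR]
    linarith
  have h2 : Real.log ‖g z₁‖ ≤ Real.log ‖g z₂‖ + (e + K) +
      Real.log ((1 + S / z₁.im) * (1 + S / z₂.im)) * e := by
    rw [Real.log_mul (by positivity) (by positivity)]
    have h3 := le_trans (le_abs_self _) H
    have h4 : K * (ε * (1 + Real.log (1 + Z / z₁.im) + Real.log (1 + Z / z₂.im)) + Z / R) =
      (K * ε) * (1 + Real.log (1 + Z / z₁.im) + Real.log (1 + Z / z₂.im)) + K * (Z / R) := by ring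
    rw [h4] at h3
    have h5 : (K * ε) * (1 + Real.log (1 + Z / z₁.im) + Real.log (1 + Z / z₂.im)) ≤
        e * (1 + Real.log (1 + S / z₁.im) + Real.log (1 + S / z₂.im)) := by
      have h6 : (K * ε) * (1 + Real.log (1 + Z / z₁.im) + Real.log (1 + Z / z₂.im)) ≤
        e * (1 + Real.log (1 + Z / z₁.im) + Real.log (1 + Z / z₂.im)) :=
        mul_le_mul_of_nonneg_right he (by linarith)
      have h7 : e * (1 + Real.log (1 + Z / z₁.im) + Real.log (1 + Z / z₂.im)) ≤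
        e * (1 + Real.log (1 + S / z₁.im) + Real.log (1 + S / z₂.im)) :=
        mul_le_mul_of_nonneg_left (by linarith) h1
      linarith
    have h8 : K * (Z / R) ≤ K * 1 := mul_le_mul_of_nonneg_left hZR hK
    linarith
  have h9 : ‖g z₁‖ = Real.exp (Real.log ‖g z₁‖) := (Real.exp_log p1).symm
  rw [h9, Real.rpow_def_of_pos (by positivity)]
  calc Real.exp (Real.log ‖g z₁‖) ≤ Real.exp (Real.log ‖g z₂‖ + (e + K) +
      Real.log ((1 + S / z₁.im) * (1 + S / z₂.im)) * e) := Real.exp_le_exp.2 h2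
    _ = _ := by rw [Real.exp_add, Real.exp_add, Real.exp_log p2]

/-- the numerical part of the shell estimate -/
lemma q9_num {δ D S K5 A CE ε : ℝ} (m : ℕ) (hδ : 0 < δ) (hD : 0 < D) (hS : D + δ ≤ S) (hK : 0 ≤ K5) (hA : 0 ≤ A)
    (hCE : 0 ≤ CE) (hm2 : m ≤ 2) :
    (K5 * ε ^ 2 * δ * (A * CE * Real.sqrt ((1 + S / δ) * (1 + S / D)))) / (S / 16) ^ (m + 1) ≤
      8192 * K5 * CE * ε ^ 2 * A * (Real.sqrt (δ / D) / (D + δ) ^ m) := by
  have hS0 : 0 < S := by linarith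
  have h1 : 1 + S / δ ≤ 2 * S / δ := by
    have : 1 ≤ S / δ := by
      rw [le_div_iff₀ hδ]
      linarith
    have e : 2 * S / δ = 2 * (S / δ) := by ring
    rw [e]
    linarith
  have h2 : 1 + S / D ≤ 2 * S / D := by
    have : 1 ≤ S / D := by
      rw [le_div_iff₀ hD]
      linarith
    have e : 2 * S / D = 2 * (S / D) := by ring
    rw [e]
    linarith
  have h3 : Real.sqrt ((1 + S / δ) * (1 + S / D)) ≤ 2 * S * Real.sqrt (δ / D) / δ := by
    have e1 : (1 + S / δ) * (1 + S / D) ≤ (2 * S / δ) ^ 2 * (δ / D) := by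
      have e2 : (2 * S / δ) ^ 2 * (δ / D) = (2 * S / δ) * (2 * S / D) := by
        field_simp
      rw [e2]
      apply mul_le_mul h1 h2 (by positivity) (by positivity)
    calc Real.sqrt ((1 + S / δ) * (1 + S / D)) ≤ Real.sqrt ((2 * S / δ) ^ 2 * (δ / D)) := Real.sqrt_le_sqrt e1
      _ = 2 * S / δ * Real.sqrt (δ / D) := by
        rw [Real.sqrt_mul (by positivity), Real.sqrt_sq (by positivity)]
      _ = _ := by ring
  have h16 : (16 : ℝ) ^ (m + 1) ≤ 4096 := by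
    interval_cases m <;> norm_num
  have hpow : (D + δ) ^ m ≤ S ^ m := pow_le_pow_left₀ (by positivity) hS m
  have hq0 : 0 ≤ Real.sqrt (δ / D) := Real.sqrt_nonneg _
  calc (K5 * ε ^ 2 * δ * (A * CE * Real.sqrt ((1 + S / δ) * (1 + S / D)))) / (S / 16) ^ (m + 1)
      ≤ (K5 * ε ^ 2 * δ * (A * CE * (2 * S * Real.sqrt (δ / D) / δ))) / (S / 16) ^ (m + 1) := by gcongr
    _ = 2 * (16 : ℝ) ^ (m + 1) * K5 * CE * ε ^ 2 * A * (Real.sqrt (δ / D) / S ^ m) := by
        rw [div_pow, pow_succ S m]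
        field_simp
    _ ≤ 2 * 4096 * K5 * CE * ε ^ 2 * A * (Real.sqrt (δ / D) / (D + δ) ^ m) := by
        gcongr
    _ = _ := by ring

lemma q9_sqrt3 : Real.sqrt (1 / 3) ≤ 3 / 5 := by
  rw [Real.sqrt_le_left (by norm_num)]
  norm_num

lemma q9_near {D : ℝ} (hD : 0 < D) (n m : ℕ) :
    Real.sqrt (D * (1 / 3) ^ n / D) / (D + D * (1 / 3) ^ n) ^ m ≤ (3 / 5) ^ n / D ^ m := by
  have h1 : D * (1 / 3) ^ n / D = ((1 : ℝ) / 3) ^ n := by field_simp
  have h2 : Real.sqrt (((1 : ℝ) / 3) ^ n) = (Real.sqrt (1 / 3)) ^ n := by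
    rw [Real.sqrt_eq_iff_mul_self_eq (by positivity) (by positivity), ← mul_pow, Real.mul_self_sqrt (by norm_num)]
  rw [h1, h2]
  have h3 : (Real.sqrt (1 / 3)) ^ n ≤ (3 / 5) ^ n := pow_le_pow_left₀ (Real.sqrt_nonneg _) q9_sqrt3 n
  have h4 : D ^ m ≤ (D + D * (1 / 3) ^ n) ^ m := pow_le_pow_left₀ hD.le (by
    have : 0 ≤ D * (1 / 3) ^ n := by positivity
    linarith) m
  gcongr

lemma q9_far {D : ℝ} (hD : 0 < D) (n m : ℕ) (hm : 1 ≤ m) :
    Real.sqrt (D * 3 ^ n / D) / (D + D * 3 ^ n) ^ m ≤ (3 / 5) ^ n / D ^ m := by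
  have h1 : D * 3 ^ n / D = (3 : ℝ) ^ n := by field_simp
  have h2 : (Real.sqrt ((3 : ℝ) ^ n)) = 3 ^ n * (Real.sqrt (1 / 3)) ^ n := by
    rw [Real.sqrt_eq_iff_mul_self_eq (by positivity) (by positivity)]
    have : (3 : ℝ) ^ n * Real.sqrt (1 / 3) ^ n * (3 ^ n * Real.sqrt (1 / 3) ^ n) =
      (3 * 3 * (Real.sqrt (1 / 3) * Real.sqrt (1 / 3))) ^ n := by
      rw [mul_pow, mul_pow, mul_pow]
      ring
    rw [this, Real.mul_self_sqrt (by norm_num)]
    norm_num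
  rw [h1, h2]
  have h3 : (Real.sqrt (1 / 3)) ^ n ≤ (3 / 5) ^ n := pow_le_pow_left₀ (Real.sqrt_nonneg _) q9_sqrt3 n
  have h4 : 3 ^ n * D ^ m ≤ (D + D * 3 ^ n) ^ m := by
    have e1 : D + D * 3 ^ n = D * (1 + 3 ^ n) := by ring
    rw [e1, mul_pow]
    have e2 : (3 : ℝ) ^ n ≤ (1 + 3 ^ n) ^ m := by
      have e3 : (1 : ℝ) + 3 ^ n ≤ (1 + 3 ^ n) ^ m := le_self_pow₀ (by
        have : (0 : ℝ) ≤ 3 ^ n := by positivity
        linarith) (by omega)
      linarith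
    nlinarith [pow_pos hD m]
  rw [div_le_div_iff₀ (by positivity) (by positivity)]
  calc (3 : ℝ) ^ n * Real.sqrt (1 / 3) ^ n * D ^ m = Real.sqrt (1 / 3) ^ n * (3 ^ n * D ^ m) := by ring
    _ ≤ (3 / 5) ^ n * (D + D * 3 ^ n) ^ m := by gcongr

/-- hypotheses shared by the shell estimates -/
structure Ctx (V : Gap cd) (ε R D K3 K5 : ℝ) : Prop where
  hε : 0 < ε
  hR : 0 < R
  hD : 0 < D
  hK3 : 0 ≤ K3
  hK5 : 0 ≤ K5
  h20 : K3 * ε ≤ 1 / 20
  hsD : 4000 * (D + V.s) ≤ R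
  H3 : ∀ z₁ ∈ Uo, ∀ z₂ ∈ Uo, ‖z₁ - (V.c : ℂ)‖ ≤ R / 4 → ‖z₂ - (V.c : ℂ)‖ ≤ R / 4 →
    |Real.log ‖V.g z₁‖ - Real.log ‖V.g z₂‖| ≤
      K3 * (ε * (1 + Real.log (1 + ‖z₁ - z₂‖ / z₁.im) + Real.log (1 + ‖z₁ - z₂‖ / z₂.im)) + ‖z₁ - z₂‖ / R)
  H5 : ∀ δ : ℝ, 0 < δ → V.s / 2 + 2 * δ ≤ R / 100 →
    ∫ t in Icc (V.b + δ / 2) (V.b + 3 * δ / 2), vf cd t / |V.q t| ≤
      K5 * ε ^ 2 * δ * ‖V.g ((V.b + δ : ℝ) + (δ : ℂ) * I)‖ ∧
    ∫ t in Icc (V.a - 3 * δ / 2) (V.a - δ / 2), vf cd t / |V.q t| ≤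
      K5 * ε ^ 2 * δ * ‖V.g ((V.a - δ : ℝ) + (δ : ℂ) * I)‖

lemma q9_qc_ne {a b : ℝ} {z : ℂ} (hz : 0 < z.im) : qc a b z ≠ 0 := by
  have h2 : ∀ s : ℝ, z - s ≠ 0 := by
    intro s h
    have := congrArg Complex.im h
    simp at this
    linarith
  unfold qc
  refine mul_ne_zero ?_ ?_
  · intro h
    rw [Complex.cpow_eq_zero_iff] at h
    exact h2 a h.1
  · intro h
    rw [Complex.cpow_eq_zero_iff] at h
    exact h2 b h.1

lemma q9_qc_norm {a b : ℝ} {z : ℂ} : ‖qc a b z‖ ^ 2 = ‖z - a‖ * ‖z - b‖ := by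
  unfold qc
  have h : ∀ w : ℂ, ‖w ^ (1 / 2 : ℂ)‖ ^ 2 = ‖w‖ := by
    intro w
    rw [← norm_pow]
    have e : (1 / 2 : ℂ) = ((2 : ℕ) : ℂ)⁻¹ := by norm_num
    rw [e, Complex.cpow_nat_inv_pow w two_ne_zero]
  rw [norm_mul, mul_pow, h, h]

lemma q9_g_ne (V : Gap cd) {z : ℂ} (hz : 0 < z.im) : V.g z ≠ 0 := by
  unfold Gap.g
  refine div_ne_zero ?_ (q9_qc_ne hz)
  intro h
  have := congrArg Complex.im h
  have h2 := cd.im_pos z hz
  simp at this
  linarith

lemma q9_f_eq (V : Gap cd) {z : ℂ} (hz : 0 < z.im) : ‖cd.f z - V.N‖ = ‖V.g z‖ * ‖qc V.a V.b z‖ := by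
  unfold Gap.g
  rw [norm_div, div_mul_cancel₀]
  exact norm_ne_zero_iff.2 (q9_qc_ne hz)

lemma q9_nrm (u v : ℝ) (z : ℂ) (hz : z.re = u) (hz2 : z.im = v) : ‖z‖ ≤ |u| + |v| := by
  have := Complex.norm_le_abs_re_add_abs_im z
  rwa [hz, hz2] at this

/-- comparison of the amplitude at height δ above a point u with the one at x + iD -/
lemma q9_ampC (V : Gap cd) (ε R D K3 K5 e : ℝ) (hc : Ctx V ε R D K3 K5) (he : 1 / 20 ≤ e) (u δ S : ℝ) (hδ : 0 < δ)
    (hu : |u - V.c| + δ ≤ R / 4) (hS : |u - (V.b + D)| + (δ + D) ≤ S) (hSR : S ≤ R) (he1 : e ≤ 1) :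
    ‖V.g ((u : ℂ) + (δ : ℂ) * I)‖ ≤ ‖V.g (((V.b + D : ℝ) : ℂ) + (D : ℂ) * I)‖ * Real.exp (1 + K3) *
      ((1 + S / δ) * (1 + S / D)) ^ e := by
  have hD := hc.hD
  have hR := hc.hR
  have hs : V.s = V.b - V.a := rfl
  have hcc : V.c = (V.a + V.b) / 2 := rfl
  have hlt := V.lt
  have hsD := hc.hsD
  have r1 : ((u : ℂ) + (δ : ℂ) * I).im = δ := by simp
  have r2 : (((V.b + D : ℝ) : ℂ) + (D : ℂ) * I).im = D := by simp
  have b1 : ‖((u : ℂ) + (δ : ℂ) * I) - (V.c : ℂ)‖ ≤ R / 4 := by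
    have := q9_nrm (u - V.c) δ (((u : ℂ) + (δ : ℂ) * I) - (V.c : ℂ)) (by simp) (by simp)
    rw [abs_of_pos hδ] at this
    linarith
  have b2 : ‖(((V.b + D : ℝ) : ℂ) + (D : ℂ) * I) - (V.c : ℂ)‖ ≤ R / 4 := by
    have := q9_nrm (V.b + D - V.c) D ((((V.b + D : ℝ) : ℂ) + (D : ℂ) * I) - (V.c : ℂ)) (by simp) (by simp)
    have e1 : V.b + D - V.c = V.s / 2 + D := by rw [hcc, hs]; ring
    rw [e1, abs_of_pos hD, abs_of_pos (by linarith)] at this
    linarith
  have b3 : ‖((u : ℂ) + (δ : ℂ) * I) - (((V.b + D : ℝ) : ℂ) + (D : ℂ) * I)‖ ≤ S := by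
    have := q9_nrm (u - (V.b + D)) (δ - D) (((u : ℂ) + (δ : ℂ) * I) - (((V.b + D : ℝ) : ℂ) + (D : ℂ) * I))
      (by simp) (by simp)
    have h2 : |δ - D| ≤ δ + D := by
      rw [abs_le]
      constructor <;> linarith
    linarith
  have m1 : ((u : ℂ) + (δ : ℂ) * I) ∈ Uo := by
    change 0 < ((u : ℂ) + (δ : ℂ) * I).im
    rw [r1]
    exact hδ
  have m2 : (((V.b + D : ℝ) : ℂ) + (D : ℂ) * I) ∈ Uo := by
    change 0 < (((V.b + D : ℝ) : ℂ) + (D : ℂ) * I).im
    rw [r2]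
    exact hD
  have H := q9_amp V.g R K3 ε e hR hc.hK3 (by linarith [hc.h20]) (by linarith)
    ((u : ℂ) + (δ : ℂ) * I) (((V.b + D : ℝ) : ℂ) + (D : ℂ) * I) S
    (by rw [r1]; exact hδ) (by rw [r2]; exact hD)
    (q9_g_ne V (by rw [r1]; exact hδ)) (q9_g_ne V (by rw [r2]; exact hD))
    (hc.H3 _ m1 _ m2 b1 b2) b3 hSR
  rw [r1, r2] at H
  refine le_trans H ?_
  have hS0 : 0 ≤ S := le_trans (norm_nonneg _) b3
  have hexp : Real.exp (e + K3) ≤ Real.exp (1 + K3) := Real.exp_le_exp.2 (by linarith)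
  gcongr

lemma q9_R (V : Gap cd) (ε R D K3 K5 : ℝ) (hc : Ctx V ε R D K3 K5) (m : ℕ) (hm : m ≤ 2) (δ : ℝ) (hδ : 0 < δ)
    (hcond : V.s / 2 + 2 * δ ≤ R / 100)
    (hw : ∀ t ∈ Icc (V.b + δ / 2) (V.b + 3 * δ / 2), (D + δ) / 8 ≤ |t - (V.b + D)|) :
    ∫⁻ t in Icc (V.b + δ / 2) (V.b + 3 * δ / 2),
      ENNReal.ofReal (vf cd t / (|V.q t| * |t - (V.b + D)| ^ (m + 1))) ≤
    ENNReal.ofReal (8192 * K5 * Real.exp (1 + K3) * ε ^ 2 * ‖V.g (((V.b + D : ℝ) : ℂ) + (D : ℂ) * I)‖ *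
      (Real.sqrt (δ / D) / (D + δ) ^ m)) := by
  have hD := hc.hD
  have hR := hc.hR
  have hK5 := hc.hK5
  have hs : V.s = V.b - V.a := rfl
  have hcc : V.c = (V.a + V.b) / 2 := rfl
  have hlt := V.lt
  have hsD := hc.hsD
  have hA := q9_ampC V ε R D K3 K5 (1 / 2) hc (by norm_num) (V.b + δ) δ (2 * (D + δ)) hδ
    (by
      have e1 : V.b + δ - V.c = V.s / 2 + δ := by rw [hcc, hs]; ring
      rw [e1, abs_of_pos (by linarith)]
      linarith)
    (by
      have e1 : V.b + δ - (V.b + D) = δ - D := by ring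
      have h2 : |δ - D| ≤ δ + D := by
        rw [abs_le]
        constructor <;> linarith
      rw [e1]
      linarith)
    (by linarith) (by norm_num)
  rw [← Real.sqrt_eq_rpow] at hA
  have h5 := (hc.H5 δ hδ hcond).1
  have hB : ∫ t in Icc (V.b + δ / 2) (V.b + 3 * δ / 2), vf cd t / |V.q t| ≤
      K5 * ε ^ 2 * δ * (‖V.g (((V.b + D : ℝ) : ℂ) + (D : ℂ) * I)‖ * Real.exp (1 + K3) *
        Real.sqrt ((1 + 2 * (D + δ) / δ) * (1 + 2 * (D + δ) / D))) := by
    refine le_trans h5 ?_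
    gcongr
  refine le_trans (q9_shell V (V.b + D) (m + 1) _ measurableSet_Icc _ (2 * (D + δ) / 16) (by positivity) ?_ hB ?_) ?_
  · refine q9_intOn V _ _ ?_
    intro t ht
    exact mul_pos (by linarith [ht.1]) (by linarith [ht.1])
  · intro t ht
    have := hw t ht
    linarith
  · apply ENNReal.ofReal_le_ofReal
    exact q9_num m hδ hD (by linarith) hK5 (norm_nonneg _) (Real.exp_pos _).le hm

lemma q9_L (V : Gap cd) (ε R D K3 K5 : ℝ) (hc : Ctx V ε R D K3 K5) (m : ℕ) (hm : m ≤ 2) (δ : ℝ) (hδ : 0 < δ)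
    (hcond : V.s / 2 + 2 * δ ≤ R / 100) :
    ∫⁻ t in Icc (V.a - 3 * δ / 2) (V.a - δ / 2),
      ENNReal.ofReal (vf cd t / (|V.q t| * |t - (V.b + D)| ^ (m + 1))) ≤
    ENNReal.ofReal (8192 * K5 * Real.exp (1 + K3) * ε ^ 2 * ‖V.g (((V.b + D : ℝ) : ℂ) + (D : ℂ) * I)‖ *
      (Real.sqrt (δ / D) / (D + δ) ^ m)) := by
  have hD := hc.hD
  have hR := hc.hR
  have hK5 := hc.hK5
  have hs : V.s = V.b - V.a := rfl
  have hcc : V.c = (V.a + V.b) / 2 := rfl
  have hlt := V.lt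
  have hsD := hc.hsD
  have hs0 : 0 < V.s := by linarith
  have hA := q9_ampC V ε R D K3 K5 (1 / 2) hc (by norm_num) (V.a - δ) δ (V.s + 2 * (D + δ)) hδ
    (by
      have e1 : V.a - δ - V.c = -(V.s / 2 + δ) := by rw [hcc, hs]; ring
      rw [e1, abs_neg, abs_of_pos (by linarith)]
      linarith)
    (by
      have e1 : V.a - δ - (V.b + D) = -(V.s + D + δ) := by rw [hs]; ring
      rw [e1, abs_neg, abs_of_pos (by linarith)]
      linarith)
    (by linarith) (by norm_num)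
  rw [← Real.sqrt_eq_rpow] at hA
  have h5 := (hc.H5 δ hδ hcond).2
  have hB : ∫ t in Icc (V.a - 3 * δ / 2) (V.a - δ / 2), vf cd t / |V.q t| ≤
      K5 * ε ^ 2 * δ * (‖V.g (((V.b + D : ℝ) : ℂ) + (D : ℂ) * I)‖ * Real.exp (1 + K3) *
        Real.sqrt ((1 + (V.s + 2 * (D + δ)) / δ) * (1 + (V.s + 2 * (D + δ)) / D))) := by
    refine le_trans h5 ?_
    gcongr
  refine le_trans (q9_shell V (V.b + D) (m + 1) _ measurableSet_Icc _ ((V.s + 2 * (D + δ)) / 16) (by positivity)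
    ?_ hB ?_) ?_
  · refine q9_intOn V _ _ ?_
    intro t ht
    exact mul_pos_of_neg_of_neg (by linarith [ht.2]) (by linarith [ht.2])
  · intro t ht
    rw [abs_of_neg (by linarith [ht.2])]
    linarith [ht.2]
  · apply ENNReal.ofReal_le_ofReal
    exact q9_num m hδ hD (by linarith) hK5 (norm_nonneg _) (Real.exp_pos _).le hm

/-- sum over shells -/
lemma q9_sum (F : ℕ → Set ℝ) (φ : ℝ → ENNReal) (E W : ℝ) (hE : 0 ≤ E) (hW : 0 < W)
    (h : ∀ n, ∫⁻ t in F n, φ t ≤ ENNReal.ofReal (E * ((3 / 5) ^ n / W))) :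
    ∫⁻ t in ⋃ n, F n, φ t ≤ ENNReal.ofReal (E * (5 / 2) / W) := by
  refine le_trans (lintegral_iUnion_le F φ) ?_
  refine le_trans (ENNReal.tsum_le_tsum h) ?_
  have hs : Summable (fun n : ℕ => E * (((3 : ℝ) / 5) ^ n / W)) := by
    have := (summable_geometric_of_lt_one (by norm_num : (0 : ℝ) ≤ 3 / 5) (by norm_num)).mul_left (E / W)
    refine this.congr (fun n => ?_)
    ring
  rw [← ENNReal.ofReal_tsum_of_nonneg (fun n => by positivity) hs]
  apply ENNReal.ofReal_le_ofReal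
  have e : (fun n : ℕ => E * (((3 : ℝ) / 5) ^ n / W)) = fun n : ℕ => (E / W) * ((3 : ℝ) / 5) ^ n := by
    funext n
    ring
  rw [e, tsum_mul_left, tsum_geometric_of_lt_one (by norm_num) (by norm_num)]
  apply le_of_eq
  norm_num
  ring

/-- tail estimate -/
lemma q9_tail (hP1 : ST_P1) (V : Gap cd) (ε R D K3 K5 : ℝ) (hc : Ctx V ε R D K3 K5) (m : ℕ) (hm : m ≤ 2) :
    ∫⁻ t in {t : ℝ | R / 1000 < |t - V.c|},
      ENNReal.ofReal (vf cd t / (|V.q t| * |t - (V.b + D)| ^ (m + 1))) ≤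
    ENNReal.ofReal (10 ^ 9 * Real.exp (1 + K3) * ‖V.g (((V.b + D : ℝ) : ℂ) + (D : ℂ) * I)‖ *
      ((R / D) ^ (1 / 10 : ℝ) / R ^ m)) := by
  have hD := hc.hD
  have hR := hc.hR
  have hs : V.s = V.b - V.a := rfl
  have hcc : V.c = (V.a + V.b) / 2 := rfl
  have hlt := V.lt
  have hsD := hc.hsD
  have hs0 : 0 < V.s := by linarith
  have hpi := Real.pi_pos
  set A : ℝ := ‖V.g (((V.b + D : ℝ) : ℂ) + (D : ℂ) * I)‖ with hA
  have hA0 : 0 ≤ A := norm_nonneg _
  set r : ℝ := R / 1000 with hr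
  have hr0 : 0 < r := by positivity
  obtain ⟨p1, -, -, -, -, -⟩ := hP1 Hm Hp C cd
  obtain ⟨i1, e1⟩ := p1 V.c r hr0
  -- pointwise
  have hpt : ∀ t ∈ {t : ℝ | r < |t - V.c|}, vf cd t / (|V.q t| * |t - (V.b + D)| ^ (m + 1)) ≤
      (2 ^ (m + 3) / r ^ (m + 1)) * (vf cd t * (r / ((t - V.c) ^ 2 + r ^ 2))) := by
    intro t ht
    have ht' : r < |t - V.c| := ht
    have hv : 0 ≤ vf cd t := cd.im_nonneg t
    have ht0 : 0 < |t - V.c| := by linarith
    have h1 : |t - V.c| / 2 ≤ |V.q t| := by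
      rw [q9_absq]
      apply Real.le_sqrt_of_sq_le
      have e2 : (t - V.a) * (t - V.b) = |t - V.c| ^ 2 - (V.s / 2) ^ 2 := by
        rw [sq_abs, hcc, hs]
        ring
      rw [e2]
      have e3 : V.s / 2 ≤ |t - V.c| / 2 := by linarith
      have e4 := pow_le_pow_left₀ (by positivity) e3 2
      nlinarith [sq_nonneg |t - V.c|]
    have h2 : |t - V.c| / 2 ≤ |t - (V.b + D)| := by
      have e2 : |t - V.c| ≤ |t - (V.b + D)| + |(V.b + D) - V.c| := abs_sub_le _ _ _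
      have e3 : (V.b + D) - V.c = V.s / 2 + D := by rw [hcc, hs]; ring
      rw [e3, abs_of_pos (show 0 < V.s / 2 + D by linarith)] at e2
      linarith
    have h3 : (|t - V.c| / 2) * (|t - V.c| / 2) ^ (m + 1) ≤ |V.q t| * |t - (V.b + D)| ^ (m + 1) := by
      gcongr
    have h4 : r ^ m * ((t - V.c) ^ 2 + r ^ 2) / 2 ^ (m + 3) ≤ (|t - V.c| / 2) * (|t - V.c| / 2) ^ (m + 1) := by
      have e2 : (|t - V.c| / 2) * (|t - V.c| / 2) ^ (m + 1) = |t - V.c| ^ m * (2 * |t - V.c| ^ 2) / 2 ^ (m + 3) := by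
        rw [div_pow, pow_succ |t - V.c| m, pow_succ (2 : ℝ) (m + 2), pow_succ (2 : ℝ) (m + 1)]
        field_simp
      rw [e2]
      have e3 : (t - V.c) ^ 2 + r ^ 2 ≤ 2 * |t - V.c| ^ 2 := by
        rw [sq_abs]
        have := pow_le_pow_left₀ hr0.le ht'.le 2
        rw [sq_abs] at this
        linarith
      have e4 : r ^ m ≤ |t - V.c| ^ m := pow_le_pow_left₀ hr0.le ht'.le m
      gcongr
    have h5 : 0 < r ^ m * ((t - V.c) ^ 2 + r ^ 2) / 2 ^ (m + 3) := by positivity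
    calc vf cd t / (|V.q t| * |t - (V.b + D)| ^ (m + 1))
        ≤ vf cd t / (r ^ m * ((t - V.c) ^ 2 + r ^ 2) / 2 ^ (m + 3)) :=
          div_le_div_of_nonneg_left hv h5 (le_trans h4 h3)
      _ = (2 ^ (m + 3) / r ^ (m + 1)) * (vf cd t * (r / ((t - V.c) ^ 2 + r ^ 2))) := by
          have : (t - V.c) ^ 2 + r ^ 2 ≠ 0 := by positivity
          rw [pow_succ r m]
          field_simp
  have hmeas : MeasurableSet {t : ℝ | r < |t - V.c|} :=
    measurableSet_lt measurable_const (by fun_prop)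
  have hnn : ∀ t, 0 ≤ (2 ^ (m + 3) / r ^ (m + 1)) * (vf cd t * (r / ((t - V.c) ^ 2 + r ^ 2))) := by
    intro t
    have hv : 0 ≤ vf cd t := cd.im_nonneg t
    positivity
  have h6 : ∫⁻ t in {t : ℝ | r < |t - V.c|},
      ENNReal.ofReal (vf cd t / (|V.q t| * |t - (V.b + D)| ^ (m + 1))) ≤
      ENNReal.ofReal ((2 ^ (m + 3) / r ^ (m + 1)) * (Real.pi * Yf cd V.c r)) := by
    calc ∫⁻ t in {t : ℝ | r < |t - V.c|}, ENNReal.ofReal (vf cd t / (|V.q t| * |t - (V.b + D)| ^ (m + 1)))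
        ≤ ∫⁻ t in {t : ℝ | r < |t - V.c|},
          ENNReal.ofReal ((2 ^ (m + 3) / r ^ (m + 1)) * (vf cd t * (r / ((t - V.c) ^ 2 + r ^ 2)))) :=
          setLIntegral_mono' hmeas (fun t ht => ENNReal.ofReal_le_ofReal (hpt t ht))
      _ ≤ ∫⁻ t, ENNReal.ofReal ((2 ^ (m + 3) / r ^ (m + 1)) * (vf cd t * (r / ((t - V.c) ^ 2 + r ^ 2)))) :=
          setLIntegral_le_lintegral _ _
      _ = ENNReal.ofReal (∫ t, (2 ^ (m + 3) / r ^ (m + 1)) * (vf cd t * (r / ((t - V.c) ^ 2 + r ^ 2)))) :=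
          (ofReal_integral_eq_lintegral_ofReal (i1.const_mul _) (Filter.Eventually.of_forall hnn)).symm
      _ = _ := by
          rw [integral_const_mul, e1, ← mul_assoc Real.pi, mul_one_div_cancel hpi.ne', one_mul]
  refine le_trans h6 ?_
  apply ENNReal.ofReal_le_ofReal
  -- bound of Y
  have him : ((V.c : ℂ) + (r : ℂ) * I).im = r := by simp
  have hY : Yf cd V.c r ≤ ‖V.g ((V.c : ℂ) + (r : ℂ) * I)‖ * (2 * r) := by
    have e2 : Yf cd V.c r ≤ ‖cd.f ((V.c : ℂ) + (r : ℂ) * I) - V.N‖ := by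
      have := Complex.abs_im_le_norm (cd.f ((V.c : ℂ) + (r : ℂ) * I) - V.N)
      have e3 : (cd.f ((V.c : ℂ) + (r : ℂ) * I) - V.N).im = Yf cd V.c r := by
        unfold Yf
        simp
      rw [e3] at this
      exact le_trans (le_abs_self _) this
    rw [q9_f_eq V (by rw [him]; exact hr0)] at e2
    refine le_trans e2 ?_
    have e4 : ‖qc V.a V.b ((V.c : ℂ) + (r : ℂ) * I)‖ ≤ 2 * r := by
      have e5 : ‖qc V.a V.b ((V.c : ℂ) + (r : ℂ) * I)‖ ^ 2 ≤ (2 * r) ^ 2 := by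
        rw [q9_qc_norm]
        have e6 : ‖((V.c : ℂ) + (r : ℂ) * I) - V.a‖ ≤ 2 * r := by
          have := q9_nrm (V.c - V.a) r (((V.c : ℂ) + (r : ℂ) * I) - V.a) (by simp) (by simp)
          have e7 : V.c - V.a = V.s / 2 := by rw [hcc, hs]; ring
          rw [e7, abs_of_pos (by linarith), abs_of_pos hr0] at this
          linarith
        have e8 : ‖((V.c : ℂ) + (r : ℂ) * I) - V.b‖ ≤ 2 * r := by
          have := q9_nrm (V.c - V.b) r (((V.c : ℂ) + (r : ℂ) * I) - V.b) (by simp) (by simp)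
          have e7 : V.c - V.b = -(V.s / 2) := by rw [hcc, hs]; ring
          rw [e7, abs_neg, abs_of_pos (by linarith), abs_of_pos hr0] at this
          linarith
        calc ‖((V.c : ℂ) + (r : ℂ) * I) - V.a‖ * ‖((V.c : ℂ) + (r : ℂ) * I) - V.b‖ ≤ (2 * r) * (2 * r) :=
              mul_le_mul e6 e8 (norm_nonneg _) (by positivity)
          _ = (2 * r) ^ 2 := by ring
      exact (pow_le_pow_iff_left₀ (norm_nonneg _) (by positivity) two_ne_zero).1 e5
    gcongr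
  have hamp := q9_ampC V ε R D K3 K5 (1 / 10) hc (by norm_num) V.c r (3 * r) hr0
    (by
      rw [sub_self, abs_zero]
      linarith)
    (by
      have e1 : V.c - (V.b + D) = -(V.s / 2 + D) := by rw [hcc, hs]; ring
      rw [e1, abs_neg, abs_of_pos (by linarith)]
      linarith)
    (by linarith) (by norm_num)
  have hrpow : ((1 + 3 * r / r) * (1 + 3 * r / D)) ^ (1 / 10 : ℝ) ≤ (R / D) ^ (1 / 10 : ℝ) := by
    apply Real.rpow_le_rpow (by positivity) _ (by norm_num)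
    have e2 : (1 + 3 * r / r) = 4 := by
      field_simp
      norm_num
    rw [e2]
    have e3 : (4000 : ℝ) ≤ R / D := by
      rw [le_div_iff₀ hD]
      linarith
    have e4 : 3 * r / D = 3 / 1000 * (R / D) := by
      rw [hr]
      ring
    rw [e4]
    linarith
  have hamp2 : ‖V.g ((V.c : ℂ) + (r : ℂ) * I)‖ ≤ A * Real.exp (1 + K3) * (R / D) ^ (1 / 10 : ℝ) := by
    refine le_trans hamp ?_
    gcongr
  have hRD : 0 ≤ (R / D) ^ (1 / 10 : ℝ) := by positivity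
  have hpi4 : Real.pi ≤ 4 := Real.pi_le_four
  calc (2 ^ (m + 3) / r ^ (m + 1)) * (Real.pi * Yf cd V.c r)
      ≤ (2 ^ (m + 3) / r ^ (m + 1)) * (4 * ((A * Real.exp (1 + K3) * (R / D) ^ (1 / 10 : ℝ)) * (2 * r))) := by
        have : Yf cd V.c r ≤ (A * Real.exp (1 + K3) * (R / D) ^ (1 / 10 : ℝ)) * (2 * r) := by
          refine le_trans hY ?_
          gcongr
        have h0 : 0 ≤ (A * Real.exp (1 + K3) * (R / D) ^ (1 / 10 : ℝ)) * (2 * r) := by positivity
        have h1 : Real.pi * Yf cd V.c r ≤ 4 * ((A * Real.exp (1 + K3) * (R / D) ^ (1 / 10 : ℝ)) * (2 * r)) := by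
          calc Real.pi * Yf cd V.c r ≤ Real.pi * ((A * Real.exp (1 + K3) * (R / D) ^ (1 / 10 : ℝ)) * (2 * r)) := by
                gcongr
            _ ≤ _ := by gcongr
        gcongr
    _ = (2 ^ (m + 6) * 1000 ^ m) * (Real.exp (1 + K3) * A * ((R / D) ^ (1 / 10 : ℝ) / R ^ m)) := by
        rw [pow_succ r m, hr, div_pow, pow_add (2 : ℝ) m 3, pow_add (2 : ℝ) m 6]
        field_simp
        ring
    _ ≤ 10 ^ 9 * (Real.exp (1 + K3) * A * ((R / D) ^ (1 / 10 : ℝ) / R ^ m)) := by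
        have h16 : (2 : ℝ) ^ (m + 6) * 1000 ^ m ≤ 10 ^ 9 := by
          interval_cases m <;> norm_num
        gcongr
    _ = _ := by ring

lemma q9_meas (V : Gap cd) (x : ℝ) (k : ℕ) : Measurable (fun t => vf cd t / (|V.q t| * |t - x| ^ k)) := by
  have h1 : (fun t => |V.q t|) = fun t => Real.sqrt ((t - V.a) * (t - V.b)) := by
    funext t
    exact q9_absq V t
  have h2 : Measurable fun t => |V.q t| := by
    rw [h1]
    exact (show Continuous fun t : ℝ => Real.sqrt ((t - V.a) * (t - V.b)) by fun_prop).measurable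
  have h3 : Measurable fun t : ℝ => |t - x| ^ k := (show Continuous fun t : ℝ => |t - x| ^ k by fun_prop).measurable
  exact (q9_vcont cd).measurable.div (h2.mul h3)

lemma q9_core (hP1 : ST_P1) (V : Gap cd) (ε R D K3 K5 : ℝ) (hc : Ctx V ε R D K3 K5) (hK51 : 1 ≤ K5) (m : ℕ)
    (hm1 : 1 ≤ m) (hm : m ≤ 2) :
    ∫⁻ t in {t : ℝ | D / 2 < |t - (V.b + D)|},
      ENNReal.ofReal (vf cd t / (|V.q t| * |t - (V.b + D)| ^ (m + 1))) ≤
    ENNReal.ofReal (10 ^ 9 * K5 * Real.exp (1 + K3) * ‖V.g (((V.b + D : ℝ) : ℂ) + (D : ℂ) * I)‖ *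
      (ε ^ 2 / D ^ m + (R / D) ^ (1 / 10 : ℝ) / R ^ m)) := by
  have hD := hc.hD
  have hR := hc.hR
  have hs : V.s = V.b - V.a := rfl
  have hcc : V.c = (V.a + V.b) / 2 := rfl
  have hlt := V.lt
  have hsD := hc.hsD
  have hs0 : 0 < V.s := by linarith
  set A : ℝ := ‖V.g (((V.b + D : ℝ) : ℂ) + (D : ℂ) * I)‖ with hA
  have hA0 : 0 ≤ A := norm_nonneg _
  set φ : ℝ → ENNReal := fun t => ENNReal.ofReal (vf cd t / (|V.q t| * |t - (V.b + D)| ^ (m + 1))) with hφ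
  set E : ℝ := 8192 * K5 * Real.exp (1 + K3) * ε ^ 2 * A with hE
  have hE0 : 0 ≤ E := by
    rw [hE]
    positivity
  have hDm : 0 < D ^ m := by positivity
  let NR : ℕ → Set ℝ := fun n => Icc (V.b + (D * (1 / 3) ^ (n + 1)) / 2) (V.b + 3 * (D * (1 / 3) ^ (n + 1)) / 2)
  let FR : ℕ → Set ℝ := fun n => Icc (V.b + (D * 3 ^ (n + 1)) / 2) (V.b + 3 * (D * 3 ^ (n + 1)) / 2) ∩
    {_t : ℝ | V.s / 2 + 2 * (D * 3 ^ (n + 1)) ≤ R / 100}
  let NL : ℕ → Set ℝ := fun n => Icc (V.a - 3 * (D * (1 / 3) ^ n) / 2) (V.a - (D * (1 / 3) ^ n) / 2)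
  let FL : ℕ → Set ℝ := fun n => Icc (V.a - 3 * (D * 3 ^ (n + 1)) / 2) (V.a - (D * 3 ^ (n + 1)) / 2) ∩
    {_t : ℝ | V.s / 2 + 2 * (D * 3 ^ (n + 1)) ≤ R / 100}
  have hthird : ∀ n : ℕ, ((1 : ℝ) / 3) ^ n ≤ 1 := fun n => pow_le_one₀ (by norm_num) (by norm_num)
  have hr35 : ∀ n : ℕ, ((3 : ℝ) / 5) ^ (n + 1) ≤ (3 / 5) ^ n := fun n => by
    rw [pow_succ]
    have : (0 : ℝ) ≤ (3 / 5) ^ n := by positivity
    linarith
  have bNR : ∀ n, ∫⁻ t in NR n, φ t ≤ ENNReal.ofReal (E * ((3 / 5) ^ n / D ^ m)) := by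
    intro n
    have hδ : 0 < D * (1 / 3) ^ (n + 1) := by positivity
    have hδ3 : D * (1 / 3) ^ (n + 1) ≤ D / 3 := by
      rw [pow_succ]
      have := mul_le_mul_of_nonneg_left (hthird n) hD.le
      linarith
    refine le_trans (q9_R V ε R D K3 K5 hc m hm (D * (1 / 3) ^ (n + 1)) hδ (by linarith) ?_) ?_
    · intro t ht
      rw [abs_of_neg (by linarith [ht.2])]
      linarith [ht.2]
    · apply ENNReal.ofReal_le_ofReal
      have h1 := q9_near hD (n + 1) m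
      have h2 : ((3 : ℝ) / 5) ^ (n + 1) / D ^ m ≤ (3 / 5) ^ n / D ^ m := by
        have := hr35 n
        gcongr
      exact mul_le_mul_of_nonneg_left (le_trans h1 h2) hE0
  have h3n : ∀ n : ℕ, (3 : ℝ) ≤ 3 ^ (n + 1) := fun n => by
    rw [pow_succ]
    have : (1 : ℝ) ≤ 3 ^ n := one_le_pow₀ (by norm_num)
    linarith
  have bFR : ∀ n, ∫⁻ t in FR n, φ t ≤ ENNReal.ofReal (E * ((3 / 5) ^ n / D ^ m)) := by
    intro n
    by_cases hcond : V.s / 2 + 2 * (D * 3 ^ (n + 1)) ≤ R / 100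
    · have hsub : FR n ⊆ Icc (V.b + (D * 3 ^ (n + 1)) / 2) (V.b + 3 * (D * 3 ^ (n + 1)) / 2) := inter_subset_left
      refine le_trans (lintegral_mono_set hsub) ?_
      have hδ : 0 < D * 3 ^ (n + 1) := by positivity
      have hδ3 : 3 * D ≤ D * 3 ^ (n + 1) := by
        have := mul_le_mul_of_nonneg_left (h3n n) hD.le
        linarith
      refine le_trans (q9_R V ε R D K3 K5 hc m hm (D * 3 ^ (n + 1)) hδ hcond ?_) ?_
      · intro t ht
        rw [abs_of_pos (by linarith [ht.1])]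
        linarith [ht.1]
      · apply ENNReal.ofReal_le_ofReal
        have h1 := q9_far hD (n + 1) m hm1
        have h2 : ((3 : ℝ) / 5) ^ (n + 1) / D ^ m ≤ (3 / 5) ^ n / D ^ m := by
          have := hr35 n
          gcongr
        exact mul_le_mul_of_nonneg_left (le_trans h1 h2) hE0
    · have : FR n = ∅ := by
        ext t
        simp only [mem_empty_iff_false, iff_false]
        intro h
        exact hcond h.2
      rw [this, Measure.restrict_empty, lintegral_zero_measure]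
      exact zero_le
  have bNL : ∀ n, ∫⁻ t in NL n, φ t ≤ ENNReal.ofReal (E * ((3 / 5) ^ n / D ^ m)) := by
    intro n
    have hδ : 0 < D * (1 / 3) ^ n := by positivity
    have hδ3 : D * (1 / 3) ^ n ≤ D := by
      have := mul_le_mul_of_nonneg_left (hthird n) hD.le
      linarith
    refine le_trans (q9_L V ε R D K3 K5 hc m hm (D * (1 / 3) ^ n) hδ (by linarith)) ?_
    apply ENNReal.ofReal_le_ofReal
    exact mul_le_mul_of_nonneg_left (q9_near hD n m) hE0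
  have bFL : ∀ n, ∫⁻ t in FL n, φ t ≤ ENNReal.ofReal (E * ((3 / 5) ^ n / D ^ m)) := by
    intro n
    by_cases hcond : V.s / 2 + 2 * (D * 3 ^ (n + 1)) ≤ R / 100
    · have hsub : FL n ⊆ Icc (V.a - 3 * (D * 3 ^ (n + 1)) / 2) (V.a - (D * 3 ^ (n + 1)) / 2) := inter_subset_left
      refine le_trans (lintegral_mono_set hsub) ?_
      have hδ : 0 < D * 3 ^ (n + 1) := by positivity
      refine le_trans (q9_L V ε R D K3 K5 hc m hm (D * 3 ^ (n + 1)) hδ hcond) ?_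
      apply ENNReal.ofReal_le_ofReal
      have h1 := q9_far hD (n + 1) m hm1
      have h2 : ((3 : ℝ) / 5) ^ (n + 1) / D ^ m ≤ (3 / 5) ^ n / D ^ m := by
        have := hr35 n
        gcongr
      exact mul_le_mul_of_nonneg_left (le_trans h1 h2) hE0
    · have : FL n = ∅ := by
        ext t
        simp only [mem_empty_iff_false, iff_false]
        intro h
        exact hcond h.2
      rw [this, Measure.restrict_empty, lintegral_zero_measure]
      exact zero_le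
  have bG : ∫⁻ t in Icc V.a V.b, φ t = 0 := by
    have h1 : ∫⁻ t in Icc V.a V.b, φ t = ∫⁻ t in Icc V.a V.b, 0 := by
      refine setLIntegral_congr_fun measurableSet_Icc ?_
      intro t ht
      show ENNReal.ofReal (vf cd t / (|V.q t| * |t - (V.b + D)| ^ (m + 1))) = 0
      rw [q9_absq, Real.sqrt_eq_zero_of_nonpos (mul_nonpos_of_nonneg_of_nonpos (by linarith [ht.1]) (by linarith [ht.2]))]
      simp
    rw [h1, lintegral_zero]
  -- covering
  have hcov : {t : ℝ | D / 2 < |t - (V.b + D)|} ⊆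
      Icc V.a V.b ∪ ({t : ℝ | R / 1000 < |t - V.c|} ∪ ((⋃ n, NR n) ∪ ((⋃ n, FR n) ∪ ((⋃ n, NL n) ∪ (⋃ n, FL n))))) := by
    intro t ht
    have ht' : D / 2 < |t - (V.b + D)| := ht
    by_cases hg : t ∈ Icc V.a V.b
    · exact Or.inl hg
    by_cases hT : R / 1000 < |t - V.c|
    · exact Or.inr (Or.inl hT)
    push Not at hT
    rw [abs_le] at hT
    refine Or.inr (Or.inr ?_)
    rcases le_or_gt t V.b with hb | hb
    · have ha : t < V.a := by
        by_contra h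
        push Not at h
        exact hg ⟨h, hb⟩
      have hy : 0 < 2 * (V.a - t) / D := by
        have : 0 < V.a - t := by linarith
        positivity
      rcases le_or_gt (2 * (V.a - t) / D / 3) 1 with h1 | h1
      · obtain ⟨n, hn1, hn2⟩ := exists_nat_pow_near_of_lt_one (by positivity : 0 < 2 * (V.a - t) / D / 3) h1
          (by norm_num : (0 : ℝ) < 1 / 3) (by norm_num)
        refine Or.inr (Or.inr (Or.inl (mem_iUnion.2 ⟨n, ?_⟩)))
        rw [div_div, lt_div_iff₀ (by positivity)] at hn1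
        rw [div_div, div_le_iff₀ (by positivity)] at hn2
        rw [pow_succ] at hn1
        constructor
        · linarith
        · linarith
      · obtain ⟨n, hn1, hn2⟩ := exists_nat_pow_near h1.le (by norm_num : (1 : ℝ) < 3)
        refine Or.inr (Or.inr (Or.inr (mem_iUnion.2 ⟨n, ?_⟩)))
        rw [div_div, le_div_iff₀ (by positivity)] at hn1
        rw [div_div, div_lt_iff₀ (by positivity)] at hn2
        rw [pow_succ] at hn2
        have hP : D * 3 ^ (n + 1) ≤ 2 * (V.a - t) := by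
          rw [pow_succ]
          linarith
        refine ⟨⟨?_, ?_⟩, ?_⟩
        · rw [pow_succ]
          linarith
        · linarith
        · show V.s / 2 + 2 * (D * 3 ^ (n + 1)) ≤ R / 100
          linarith [hT.1]
    · rcases lt_or_ge t (V.b + D) with hx | hx
      · rw [abs_of_neg (by linarith)] at ht'
        have hpos : 0 < t - V.b := by linarith
        have h1 : 2 * (t - V.b) / D ≤ 1 := by
          rw [div_le_one hD]
          linarith
        obtain ⟨n, hn1, hn2⟩ := exists_nat_pow_near_of_lt_one (by positivity : 0 < 2 * (t - V.b) / D) h1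
          (by norm_num : (0 : ℝ) < 1 / 3) (by norm_num)
        refine Or.inl (mem_iUnion.2 ⟨n, ?_⟩)
        rw [lt_div_iff₀ hD] at hn1
        rw [div_le_iff₀ hD] at hn2
        constructor
        · linarith
        · rw [pow_succ]
          linarith
      · rw [abs_of_nonneg (by linarith)] at ht'
        have h1 : 1 ≤ 2 * (t - V.b) / D / 3 := by
          rw [div_div, le_div_iff₀ (by positivity)]
          linarith
        obtain ⟨n, hn1, hn2⟩ := exists_nat_pow_near h1 (by norm_num : (1 : ℝ) < 3)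
        refine Or.inr (Or.inl (mem_iUnion.2 ⟨n, ?_⟩))
        rw [div_div, le_div_iff₀ (by positivity)] at hn1
        rw [div_div, div_lt_iff₀ (by positivity)] at hn2
        rw [pow_succ] at hn2
        have hP : D * 3 ^ (n + 1) ≤ 2 * (t - V.b) := by
          rw [pow_succ]
          linarith
        refine ⟨⟨?_, ?_⟩, ?_⟩
        · linarith
        · rw [pow_succ]
          linarith
        · show V.s / 2 + 2 * (D * 3 ^ (n + 1)) ≤ R / 100
          linarith [hT.2]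
  have htail := q9_tail hP1 V ε R D K3 K5 hc m hm
  have u1 := q9_sum NR φ E (D ^ m) hE0 hDm bNR
  have u2 := q9_sum FR φ E (D ^ m) hE0 hDm bFR
  have u3 := q9_sum NL φ E (D ^ m) hE0 hDm bNL
  have u4 := q9_sum FL φ E (D ^ m) hE0 hDm bFL
  set T : ℝ := 10 ^ 9 * Real.exp (1 + K3) * A * ((R / D) ^ (1 / 10 : ℝ) / R ^ m) with hT
  set B : ℝ := E * (5 / 2) / D ^ m with hB
  have hB0 : 0 ≤ B := by positivity
  have hT0 : 0 ≤ T := by positivity
  have htot : ∫⁻ t in {t : ℝ | D / 2 < |t - (V.b + D)|}, φ t ≤ ENNReal.ofReal (T + (B + (B + (B + B)))) := by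
    refine le_trans (lintegral_mono_set hcov) ?_
    refine le_trans (lintegral_union_le φ _ _) ?_
    rw [bG, zero_add]
    refine le_trans (lintegral_union_le φ _ _) ?_
    rw [ENNReal.ofReal_add hT0 (by positivity)]
    refine add_le_add htail ?_
    refine le_trans (lintegral_union_le φ _ _) ?_
    rw [ENNReal.ofReal_add hB0 (by positivity)]
    refine add_le_add u1 ?_
    refine le_trans (lintegral_union_le φ _ _) ?_
    rw [ENNReal.ofReal_add hB0 (by positivity)]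
    refine add_le_add u2 ?_
    refine le_trans (lintegral_union_le φ _ _) ?_
    rw [ENNReal.ofReal_add hB0 hB0]
    exact add_le_add u3 u4
  refine le_trans htot ?_
  apply ENNReal.ofReal_le_ofReal
  have hCE := Real.exp_pos (1 + K3)
  have c1 : T ≤ 10 ^ 9 * K5 * Real.exp (1 + K3) * A * ((R / D) ^ (1 / 10 : ℝ) / R ^ m) := by
    rw [hT]
    have h0 : 0 ≤ 10 ^ 9 * Real.exp (1 + K3) * A * ((R / D) ^ (1 / 10 : ℝ) / R ^ m) := hT0
    have := mul_le_mul_of_nonneg_left hK51 h0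
    linarith
  have c2 : B + (B + (B + B)) ≤ 10 ^ 9 * K5 * Real.exp (1 + K3) * A * (ε ^ 2 / D ^ m) := by
    have e1 : B + (B + (B + B)) = 81920 * (K5 * Real.exp (1 + K3) * A * (ε ^ 2 / D ^ m)) := by
      rw [hB, hE]
      ring
    rw [e1]
    have h0 : 0 ≤ K5 * Real.exp (1 + K3) * A * (ε ^ 2 / D ^ m) := by positivity
    linarith
  linarith

lemma q9_fin (f : ℝ → ℝ) (S : Set ℝ) (B : ℝ) (hf : Measurable f) (h0 : ∀ t, 0 ≤ f t) (hB : 0 ≤ B)
    (h : ∫⁻ t in S, ENNReal.ofReal (f t) ≤ ENNReal.ofReal B) : IntegrableOn f S ∧ ∫ t in S, f t ≤ B := by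
  constructor
  · refine ⟨hf.aestronglyMeasurable, ?_⟩
    rw [hasFiniteIntegral_iff_ofReal (Filter.Eventually.of_forall h0)]
    exact lt_of_le_of_lt h ENNReal.ofReal_lt_top
  · rw [integral_eq_lintegral_of_nonneg_ae (Filter.Eventually.of_forall h0) hf.aestronglyMeasurable]
    exact ENNReal.toReal_le_of_le_ofReal hB h

theorem st_Q9 (hP1 : ST_P1) (hP2 : ST_P2) (hQ3 : ST_Q3) (hQ4 : ST_Q4) (hQ5 : ST_Q5) : ST_Q9 := by
  obtain ⟨K3, hK31, H3⟩ := hQ3
  obtain ⟨K5, ε5, hK51, hε5, H5⟩ := hQ5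
  have hK30 : 0 < K3 := by linarith
  have hexp : 1 ≤ Real.exp (1 + K3) := Real.one_le_exp (by linarith)
  have hKbig : (10 : ℝ) ^ 9 ≤ 10 ^ 9 * K5 * Real.exp (1 + K3) := by
    have h1 : (1 : ℝ) ≤ K5 * Real.exp (1 + K3) := by nlinarith
    nlinarith
  refine ⟨10 ^ 9 * K5 * Real.exp (1 + K3), min ε5 (min (1 / 10 ^ 5) (1 / (20 * K3))), by linarith,
    lt_min hε5 (lt_min (by norm_num) (by positivity)), ?_⟩
  intro ε Hm Hp C cd hPar hε V0 x D R A hmu hLW hDx hD hKR hA k hk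
  have hεpos : 0 < ε := hPar.1
  have hHm : 0 < Hm := hPar.2.1
  have he5 : ε ≤ ε5 := le_trans hε (min_le_left _ _)
  have he1 : ε ≤ 1 / 10 ^ 5 := le_trans hε (le_trans (min_le_right _ _) (min_le_left _ _))
  have he2 : ε ≤ 1 / (20 * K3) := le_trans hε (le_trans (min_le_right _ _) (min_le_right _ _))
  have hlt := V0.lt
  have hs0 : 0 < V0.s := by
    show 0 < V0.b - V0.a
    linarith
  have hsum : 0 < D + V0.s := by linarith
  have hKR' : 10 ^ 9 * (D + V0.s) ≤ R := le_trans (mul_le_mul_of_nonneg_right hKbig hsum.le) hKR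
  have hR : 0 < R := by
    have : 0 < 10 ^ 9 * (D + V0.s) := by positivity
    linarith
  obtain ⟨-, -, -, -, -, -, hlev, -, -, -, -, -⟩ := hP2 Hm Hp C cd hHm
  obtain ⟨-, -, -, q4⟩ := hQ4 ε Hm Hp C cd hPar he1
  have h3 := (H3 ε Hm Hp C cd hHm hεpos (le_trans he1 (by norm_num)) V0.a V0.b V0.N R hlt.le
    (by
      show V0.s ≤ R
      linarith) hR
    (fun t ht => V0.lab t ht) (fun t ht => hlev V0 t ht)
    (fun t ht hout => (q4 V0 t (hLW t ht)).2.2.1 hout)).2.1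
  have hctx : Ctx V0 ε R D K3 K5 :=
    { hε := hεpos
      hR := hR
      hD := hD
      hK3 := hK30.le
      hK5 := by linarith
      h20 := by
        have := mul_le_mul_of_nonneg_left he2 hK30.le
        have e : K3 * (1 / (20 * K3)) = 1 / 20 := by field_simp
        rw [e] at this
        exact this
      hsD := by linarith
      H3 := h3
      H5 := fun δ hδ hcond => H5 ε Hm Hp C cd hPar he5 V0 R δ hmu hLW hδ hcond }
  have hxe : x = V0.b + D := by linarith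
  have hmain : ∀ m : ℕ, 1 ≤ m → m ≤ 2 →
      IntegrableOn (fun t => vf cd t / (|V0.q t| * |t - x| ^ (m + 1))) {t : ℝ | D / 2 < |t - x|} ∧
      ∫ t in {t : ℝ | D / 2 < |t - x|}, vf cd t / (|V0.q t| * |t - x| ^ (m + 1)) ≤
        10 ^ 9 * K5 * Real.exp (1 + K3) * A * (ε ^ 2 / D ^ m + (R / D) ^ (1 / 10 : ℝ) / R ^ m) := by
    intro m hm1 hm2
    have hcore := q9_core hP1 V0 ε R D K3 K5 hctx hK51 m hm1 hm2
    rw [← hxe, ← hA] at hcore
    refine q9_fin _ _ _ (q9_meas V0 x (m + 1)) ?_ ?_ hcore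
    · intro t
      have hv : 0 ≤ vf cd t := cd.im_nonneg t
      positivity
    · have : 0 ≤ A := by
        rw [hA]
        exact norm_nonneg _
      positivity
  rcases hk with h | h
  · rw [h]
    exact hmain 1 le_rfl (by norm_num)
  · rw [h]
    exact hmain 2 (by norm_num) le_rfl

end

end Pool.Agent.Helper48.CV.Q9
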